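import Pool.Agent.H542R3.ARW.Stmts

/-! TaskBellman (helper586). -/

set_option autoImplicit false
set_option linter.unusedSectionVars false

namespace H542ARW

open Finset

namespace Bell

variable {V E : Type} [Fintype V] [DecidableEq V] [Fintype E] [DecidableEq E]

lemma avg_mono (src : E → V) (tgt : E → Option V) (v : V) (F G : Option V → ℝ)
    (h : ∀ z, F z ≤ G z) : avg src tgt v F ≤ avg src tgt v G := by
  unfold avg
  exact div_le_div_of_nonneg_right (sum_le_sum fun e _ => h _) (Nat.cast_nonneg _)

lemma top_mono (src : E → V) (tgt : E → Option V) (lam : ℝ) (hl : 0 < lam) (v : V)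
    (f g : Conf V → ℝ) (σ : Conf V) (h1 : f (slpAt σ v) ≤ g (slpAt σ v))
    (h2 : ∀ z, f (addAt (remAt σ v) z) ≤ g (addAt (remAt σ v) z)) :
    top src tgt lam v f σ ≤ top src tgt lam v g σ := by
  unfold top
  refine add_le_add (mul_le_mul_of_nonneg_left h1 (by positivity))
    (mul_le_mul_of_nonneg_left (avg_mono src tgt v _ _ h2) (by positivity))

lemma top_mono' (src : E → V) (tgt : E → Option V) (lam : ℝ) (hl : 0 < lam) (v : V)
    (f g : Conf V → ℝ) (σ : Conf V) (h : ∀ τ, f τ ≤ g τ) :
    top src tgt lam v f σ ≤ top src tgt lam v g σ :=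
  top_mono src tgt lam hl v f g σ (h _) fun _ => h _

lemma avg_add (src : E → V) (tgt : E → Option V) (v : V) (F G : Option V → ℝ) :
    avg src tgt v (fun z => F z + G z) = avg src tgt v F + avg src tgt v G := by
  unfold avg
  rw [sum_add_distrib, add_div]

lemma top_add (src : E → V) (tgt : E → Option V) (lam : ℝ) (v : V)
    (f g : Conf V → ℝ) (σ : Conf V) :
    top src tgt lam v (fun τ => f τ + g τ) σ =
      top src tgt lam v f σ + top src tgt lam v g σ := by
  unfold top
  rw [avg_add]
  ring

lemma top_const_mul (src : E → V) (tgt : E → Option V) (lam : ℝ) (v : V) (c : ℝ)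
    (f : Conf V → ℝ) (σ : Conf V) :
    top src tgt lam v (fun τ => c * f τ) σ = c * top src tgt lam v f σ := by
  unfold top avg
  rw [← mul_sum]
  ring

lemma top_const (src : E → V) (tgt : E → Option V) (lam : ℝ) (hl : 0 < lam) (v : V)
    (hne : (out src v).Nonempty) (c : ℝ) (σ : Conf V) :
    top src tgt lam v (fun _ => c) σ = c := by
  unfold top avg
  have h1 : ((out src v).card : ℝ) ≠ 0 := by
    exact_mod_cast (card_pos.2 hne).ne'
  have h2 : (1 + lam) ≠ 0 := by positivity
  rw [sum_const, nsmul_eq_mul]
  field_simp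
  ring

lemma top_nonneg (src : E → V) (tgt : E → Option V) (lam : ℝ) (hl : 0 < lam) (v : V)
    (hne : (out src v).Nonempty) (f : Conf V → ℝ) (σ : Conf V) (h : ∀ τ, 0 ≤ f τ) :
    0 ≤ top src tgt lam v f σ := by
  have := top_mono' src tgt lam hl v (fun _ => 0) f σ h
  rwa [top_const src tgt lam hl v hne] at this

lemma act_add_pos (s : Site) : 0 < s.add.act := by
  cases s <;> simp [Site.add, Site.act]

lemma act_slpAt (σ : Conf V) (u v : V) (huv : u ≠ v) (hv : 0 < (σ v).act) :
    0 < ((slpAt σ u) v).act := by
  unfold slpAt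
  rwa [Function.update_of_ne huv.symm]

lemma act_addAt (σ : Conf V) (u v : V) (z : Option V) (huv : u ≠ v) (hv : 0 < (σ v).act) :
    0 < ((addAt (remAt σ u) z) v).act := by
  have h1 : remAt σ u v = σ v := by
    unfold remAt
    rw [Function.update_of_ne huv.symm]
  cases z with
  | none => simpa [addAt, h1] using hv
  | some w =>
    unfold addAt
    by_cases hw : v = w
    · subst hw
      simp only [Function.update_self]
      exact act_add_pos _
    · simp only [Function.update_of_ne hw]
      rwa [h1]

/-- the active sites -/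
def acts (σ : Conf V) : Finset V := univ.filter fun v => 0 < (σ v).act

lemma acts_nonempty (σ : Conf V) (h : ¬ Stable σ) : (acts σ).Nonempty := by
  unfold Stable at h
  push Not at h
  obtain ⟨v, hv⟩ := h
  exact ⟨v, mem_filter.2 ⟨mem_univ _, Nat.pos_of_ne_zero hv⟩⟩

/-- Bellman iteration -/
noncomputable def Vn (src : E → V) (tgt : E → Option V) (lam : ℝ) (φ : Conf V → ℝ)
    (r : V → Conf V → ℝ) : ℕ → Conf V → ℝ
  | 0 => fun σ => if Stable σ then φ σ else 0
  | n + 1 => fun σ => if h : Stable σ then φ σ else
      (acts σ).sup' (acts_nonempty σ h)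
        (fun v => r v σ + top src tgt lam v (Vn src tgt lam φ r n) σ)

end Bell

open Bell

theorem tBellman : TaskComm → TaskDrift → TaskBellman := by
  intro hComm hDrift V E _ _ _ _ src tgt lam t hl hLy hne φ r B C hC hφ hr hex
  obtain ⟨hD1, -, -, hD4, -, -⟩ := hDrift V E src tgt lam t hl hLy hne
  set W := Vn src tgt lam φ r with hW
  have hW0 : ∀ σ, ¬ Stable σ → W 0 σ = 0 := fun σ h => by
    rw [hW]; simp only [Vn]; rw [if_neg h]
  have hWst : ∀ n σ, Stable σ → W n σ = φ σ := by
    intro n σ h
    cases n with
    | zero => rw [hW]; simp only [Vn]; rw [if_pos h]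
    | succ n => rw [hW]; simp only [Vn]; rw [dif_pos h]
  have hWs : ∀ n σ (h : ¬ Stable σ), W (n + 1) σ = (acts σ).sup' (acts_nonempty σ h)
      (fun v => r v σ + top src tgt lam v (W n) σ) := by
    intro n σ h
    rw [hW]
    conv_lhs => rw [Vn]
    simp only
    rw [dif_neg h]
  have hns : ∀ (σ : Conf V) (v : V), 0 < (σ v).act → ¬ Stable σ := fun σ v hv h => by
    have := h v; omega
  -- one step is at least the toppling of `v`
  have hge : ∀ n σ v, 0 < (σ v).act → r v σ + top src tgt lam v (W n) σ ≤ W (n + 1) σ := by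
    intro n σ v hv
    rw [hWs n σ (hns σ v hv)]
    exact le_sup' (fun v => r v σ + top src tgt lam v (W n) σ)
      (mem_filter.2 ⟨mem_univ _, hv⟩)
  have hle : ∀ n σ (M : ℝ), ¬ Stable σ →
      (∀ v, 0 < (σ v).act → r v σ + top src tgt lam v (W n) σ ≤ M) → W (n + 1) σ ≤ M := by
    intro n σ M h hM
    rw [hWs n σ h]
    exact sup'_le _ _ fun v hv => hM v (mem_filter.1 hv).2
  have hnn : ∀ n σ, 0 ≤ W n σ := by
    intro n
    induction n with
    | zero =>
      intro σ
      by_cases h : Stable σ
      · rw [hWst 0 σ h]; exact (hφ σ).1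
      · rw [hW0 σ h]
    | succ n ih =>
      intro σ
      by_cases h : Stable σ
      · rw [hWst _ σ h]; exact (hφ σ).1
      · obtain ⟨v, hv⟩ := acts_nonempty σ h
        have hv' := (mem_filter.1 hv).2
        refine le_trans ?_ (hge n σ v hv')
        exact add_nonneg (hr v σ hv').1 (top_nonneg src tgt lam hl v (hne v) _ σ ih)
  have hmono : ∀ n σ, W n σ ≤ W (n + 1) σ := by
    intro n
    induction n with
    | zero =>
      intro σ
      by_cases h : Stable σ
      · rw [hWst 0 σ h, hWst 1 σ h]
      · rw [hW0 σ h]; exact hnn 1 σ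
    | succ n ih =>
      intro σ
      by_cases h : Stable σ
      · rw [hWst _ σ h, hWst _ σ h]
      · refine hle n σ _ h fun v hv => ?_
        refine le_trans ?_ (hge (n + 1) σ v hv)
        exact add_le_add le_rfl (top_mono' src tgt lam hl v _ _ σ ih)
  have hub : ∀ n σ, W n σ ≤ B + C * Psi t σ := by
    intro n
    induction n with
    | zero =>
      intro σ
      have h1 : 0 ≤ C * Psi t σ := mul_nonneg hC (hD4 σ)
      have h2 := hφ σ
      by_cases h : Stable σ
      · rw [hWst 0 σ h]; linarith
      · rw [hW0 σ h]; linarith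
    | succ n ih =>
      intro σ
      have h1 : 0 ≤ C * Psi t σ := mul_nonneg hC (hD4 σ)
      have h2 := hφ σ
      by_cases h : Stable σ
      · rw [hWst _ σ h]; linarith
      · refine hle n σ _ h fun v hv => ?_
        have h3 := top_mono' src tgt lam hl v (W n) (fun τ => B + C * Psi t τ) σ ih
        have h4 : top src tgt lam v (fun τ => B + C * Psi t τ) σ =
            B + C * top src tgt lam v (Psi t) σ := by
          rw [top_add src tgt lam v (fun _ => B) (fun τ => C * Psi t τ) σ,
            top_const src tgt lam hl v (hne v), top_const_mul]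
        have h5 := hD1 v σ hv
        have h6 := (hr v σ hv).2
        have h7 : C * top src tgt lam v (Psi t) σ ≤ C * (Psi t σ - 1 / (1 + lam)) :=
          mul_le_mul_of_nonneg_left h5 hC
        have h8 : C * (Psi t σ - 1 / (1 + lam)) = C * Psi t σ - C / (1 + lam) := by ring
        rw [h4] at h3
        linarith
  -- the key inequality
  have hkey : ∀ n σ v, 0 < (σ v).act → W n σ ≤ r v σ + top src tgt lam v (W n) σ := by
    intro n
    induction n with
    | zero =>
      intro σ v hv
      rw [hW0 σ (hns σ v hv)]
      exact add_nonneg (hr v σ hv).1 (top_nonneg src tgt lam hl v (hne v) _ σ (hnn 0))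
    | succ n ih =>
      intro σ v hv
      refine hle n σ _ (hns σ v hv) fun u hu => ?_
      by_cases huv : u = v
      · subst huv
        exact add_le_add le_rfl (top_mono' src tgt lam hl u _ _ σ (hmono n))
      · have h1 : top src tgt lam u (W n) σ ≤
            top src tgt lam u (fun τ => r v τ + top src tgt lam v (W n) τ) σ := by
          refine top_mono src tgt lam hl u _ _ σ ?_ ?_
          · exact ih _ v (act_slpAt σ u v huv hv)
          · intro z
            exact ih _ v (act_addAt σ u v z huv hv)
        have h2 : top src tgt lam u (fun τ => r v τ + top src tgt lam v (W n) τ) σ =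
            top src tgt lam u (r v) σ + top src tgt lam u (top src tgt lam v (W n)) σ :=
          top_add src tgt lam u (r v) (top src tgt lam v (W n)) σ
        have h3 := hComm V E src tgt lam u v (W n) σ huv hu hv
        have h4 := hex u v σ huv hu hv
        have h5 : top src tgt lam v (fun τ => r u τ + top src tgt lam u (W n) τ) σ =
            top src tgt lam v (r u) σ + top src tgt lam v (top src tgt lam u (W n)) σ :=
          top_add src tgt lam v (r u) (top src tgt lam u (W n)) σ
        have h6 : top src tgt lam v (fun τ => r u τ + top src tgt lam u (W n) τ) σ ≤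
            top src tgt lam v (W (n + 1)) σ := by
          refine top_mono src tgt lam hl v _ _ σ ?_ ?_
          · exact hge n _ u (act_slpAt σ v u (Ne.symm huv) hu)
          · intro z
            exact hge n _ u (act_addAt σ v u z (Ne.symm huv) hu)
        linarith
  -- the limit
  have hm : ∀ σ, Monotone fun n => W n σ := fun σ => monotone_nat_of_le_succ fun n => hmono n σ
  have hbdd : ∀ σ, BddAbove (Set.range fun n => W n σ) := fun σ =>
    ⟨B + C * Psi t σ, by rintro _ ⟨n, rfl⟩; exact hub n σ⟩
  have hlim : ∀ σ, Filter.Tendsto (fun n => W n σ) Filter.atTop (nhds (⨆ n, W n σ)) :=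
    fun σ => tendsto_atTop_ciSup (hm σ) (hbdd σ)
  have htop : ∀ v σ, Filter.Tendsto (fun n => top src tgt lam v (W n) σ) Filter.atTop
      (nhds (top src tgt lam v (fun τ => ⨆ n, W n τ) σ)) := by
    intro v σ
    unfold top avg
    refine ((hlim _).const_mul _).add (Filter.Tendsto.const_mul _ (Filter.Tendsto.div_const ?_ _))
    exact tendsto_finsetSum _ fun e _ => hlim _
  refine ⟨fun σ => ⨆ n, W n σ, ?_, ?_, ?_⟩
  · intro σ h
    have : (fun n => W n σ) = fun _ => φ σ := funext fun n => hWst n σ h
    simp only [this, ciSup_const]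
  · intro σ v hv
    apply le_antisymm
    · exact le_of_tendsto_of_tendsto' (hlim σ) ((htop v σ).const_add (r v σ))
        fun n => hkey n σ v hv
    · refine le_of_tendsto_of_tendsto' ((htop v σ).const_add (r v σ))
        ((hlim σ).comp (Filter.tendsto_add_atTop_nat 1)) fun n => ?_
      exact hge n σ v hv
  · intro σ
    exact ⟨(hnn 0 σ).trans (le_ciSup (hbdd σ) 0), ciSup_le fun n => hub n σ⟩

end H542ARW
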