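import Pool.Agent.H542R3.ARW.Stmts

/-! The jump chain computes the value of the invariant. -/

set_option autoImplicit false
set_option linter.unusedSectionVars false
set_option maxHeartbeats 4000000

namespace H542ARW.Jump

open Finset H542ARW

section

variable {V E : Type} [Fintype V] [DecidableEq V] [Fintype E] [DecidableEq E]
  (src : E → V) (tgt : E → Option V) (lam : ℝ)

/-- contribution of the site `v` -/
noncomputable def br (f : Conf V → ℝ) (s : Conf V) (v : V) : ℝ :=
  ((s v).act : ℝ) * avg src tgt v (fun z => f (addAt (remAt s v) z)) +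
    (if s v = Site.active 1 then lam * f (slpAt s v) else 0)

lemma slpAt_one (s : Conf V) (v : V) (h : s v = Site.active 1) :
    slpAt s v = Function.update s v Site.asleep := by
  unfold slpAt
  rw [h]
  rfl

lemma num_eq (f : Conf V → ℝ) (s : Conf V) :
    (∑ e, ((s (src e)).act : ℝ) / ((out src (src e)).card : ℝ) * f (jumpAlong src tgt s e)
      + ∑ v, (if s v = Site.active 1 then lam * f (Function.update s v Site.asleep) else 0))
      = ∑ v, br src tgt lam f s v := by
  unfold br
  rw [sum_add_distrib]
  congr 1
  · rw [← Finset.sum_fiberwise (s := (univ : Finset E)) (g := src)]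
    refine sum_congr rfl fun v _ => ?_
    unfold avg
    rw [← mul_div_assoc, mul_sum, sum_div]
    refine sum_congr rfl fun e he => ?_
    have hv : src e = v := (mem_filter.1 he).2
    subst hv
    unfold jumpAlong
    ring
  · refine sum_congr rfl fun v _ => ?_
    split_ifs with h
    · rw [slpAt_one s v h]
    · rfl

lemma br_eq (hlam : 0 < lam) (f : Conf V → ℝ) (s : Conf V) (v : V) :
    br src tgt lam f s v = ((s v).act : ℝ) * ((1 + lam) * top src tgt lam v f s - lam * f s) +
      (if s v = Site.active 1 then lam * f s else 0) := by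
  have h1 : (1 + lam) * top src tgt lam v f s =
      lam * f (slpAt s v) + avg src tgt v (fun z => f (addAt (remAt s v) z)) := by
    unfold top
    have : (1 + lam) ≠ 0 := by positivity
    field_simp
  rw [h1]
  unfold br
  by_cases h : s v = Site.active 1
  · rw [if_pos h, if_pos h, h]
    simp only [Site.act]
    push_cast
    ring
  · rw [if_neg h, if_neg h]
    cases hs : s v with
    | asleep => simp [Site.act]
    | active k =>
      by_cases hk : k = 0
      · subst hk; simp [Site.act]
      · have hk1 : k ≠ 1 := fun hk1 => h (by rw [hs, hk1])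
        have hslp : slpAt s v = s := by
          unfold slpAt
          rw [hs]
          simp only [Site.slp, if_neg hk1]
          rw [← hs, Function.update_eq_self]
        rw [hslp]
        ring

lemma rate_eq (s : Conf V) : rate lam s =
    ∑ v, (((s v).act : ℝ) + (if s v = Site.active 1 then lam else 0)) := by
  unfold rate
  rw [sum_add_distrib]

lemma sum_act_pos (s : Conf V) (hs : ¬ Stable s) : (0 : ℝ) < ∑ v, ((s v).act : ℝ) := by
  unfold Stable at hs
  push Not at hs
  obtain ⟨v, hv⟩ := hs
  refine sum_pos' (fun _ _ => Nat.cast_nonneg _) ⟨v, mem_univ v, ?_⟩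
  exact_mod_cast Nat.pos_of_ne_zero hv

lemma rate_pos (hlam : 0 < lam) (s : Conf V) (hs : ¬ Stable s) : 0 < rate lam s := by
  unfold rate
  have h1 := sum_act_pos s hs
  have h2 : 0 ≤ ∑ v, (if s v = Site.active 1 then lam else 0) :=
    sum_nonneg fun v _ => by split_ifs <;> linarith
  linarith

lemma rate_le (hlam : 0 < lam) (s : Conf V) : rate lam s ≤ (1 + lam) * ∑ v, ((s v).act : ℝ) := by
  rw [rate_eq, mul_sum]
  refine sum_le_sum fun v _ => ?_
  split_ifs with h
  · rw [h]; simp only [Site.act]; push_cast; linarith
  · have : (0 : ℝ) ≤ ((s v).act : ℝ) := Nat.cast_nonneg _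
    nlinarith

lemma stepOp_ns (f : Conf V → ℝ) (s : Conf V) (hs : ¬ Stable s) :
    stepOp src tgt lam f s = (∑ v, br src tgt lam f s v) / rate lam s := by
  unfold stepOp
  rw [if_neg hs, num_eq]

lemma stepOp_st (f : Conf V → ℝ) (s : Conf V) (hs : Stable s) :
    stepOp src tgt lam f s = f s := by
  unfold stepOp
  rw [if_pos hs]

lemma stepOp_mono (hlam : 0 < lam) (f g : Conf V → ℝ) (s : Conf V) (hs : ¬ Stable s)
    (h1 : ∀ v z, 0 < (s v).act → f (addAt (remAt s v) z) ≤ g (addAt (remAt s v) z))
    (h2 : ∀ v, 0 < (s v).act → f (slpAt s v) ≤ g (slpAt s v)) :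
    stepOp src tgt lam f s ≤ stepOp src tgt lam g s := by
  rw [stepOp_ns src tgt lam f s hs, stepOp_ns src tgt lam g s hs]
  have hr := rate_pos lam hlam s hs
  refine div_le_div_of_nonneg_right (sum_le_sum fun v _ => ?_) hr.le
  unfold br
  apply add_le_add
  · by_cases hv : 0 < (s v).act
    · apply mul_le_mul_of_nonneg_left _ (Nat.cast_nonneg _)
      unfold avg
      refine div_le_div_of_nonneg_right (sum_le_sum fun e _ => h1 v _ hv) (Nat.cast_nonneg _)
    · have : (s v).act = 0 := by omega
      rw [this]; simp
  · split_ifs with h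
    · have := h2 v (by rw [h]; simp [Site.act])
      exact mul_le_mul_of_nonneg_left this hlam.le
    · exact le_rfl

lemma stepOp_sub (f g : Conf V → ℝ) (s : Conf V) :
    stepOp src tgt lam (fun x => f x - g x) s = stepOp src tgt lam f s - stepOp src tgt lam g s := by
  unfold stepOp
  split_ifs with hs
  · rfl
  · rw [← sub_div]
    congr 1
    rw [add_sub_add_comm, ← sum_sub_distrib, ← sum_sub_distrib]
    congr 1
    · refine sum_congr rfl fun e _ => by ring
    · refine sum_congr rfl fun v _ => ?_
      split_ifs <;> ring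

lemma stepOp_smul (c : ℝ) (f : Conf V → ℝ) (s : Conf V) :
    stepOp src tgt lam (fun x => c * f x) s = c * stepOp src tgt lam f s := by
  unfold stepOp
  split_ifs with hs
  · rfl
  · rw [← mul_div_assoc]
    congr 1
    rw [mul_add, mul_sum, mul_sum]
    congr 1
    · refine sum_congr rfl fun e _ => by ring
    · refine sum_congr rfl fun v _ => ?_
      split_ifs <;> ring

lemma stepOp_zero (s : Conf V) : stepOp src tgt lam (fun _ => (0 : ℝ)) s = 0 := by
  have := stepOp_smul src tgt lam 0 (fun _ => (0 : ℝ)) s
  simpa using this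

lemma stepOp_L (hlam : 0 < lam) (A : Conf V → Prop) (L : Conf V → ℝ)
    (hL : IsVal src tgt lam A L) (s : Conf V) : stepOp src tgt lam L s = L s := by
  by_cases hs : Stable s
  · exact stepOp_st src tgt lam L s hs
  · rw [stepOp_ns src tgt lam L s hs]
    have hr := rate_pos lam hlam s hs
    rw [div_eq_iff hr.ne', rate_eq, mul_sum]
    refine sum_congr rfl fun v _ => ?_
    rw [br_eq src tgt lam hlam]
    by_cases hv : 0 < (s v).act
    · rw [← hL.inv s v hv]
      split_ifs <;> ring
    · have h0 : (s v).act = 0 := by omega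
      have h1 : s v ≠ Site.active 1 := fun h => by rw [h] at h0; simp [Site.act] at h0
      rw [if_neg h1, if_neg h1, h0]
      simp

lemma stepOp_Psi (hlam : 0 < lam) (t : Option V → ℝ)
    (hd : ∀ (u : V) (σ : Conf V), 0 < (σ u).act →
      top src tgt lam u (Psi t) σ ≤ Psi t σ - 1 / (1 + lam)) (s : Conf V) (hs : ¬ Stable s) :
    stepOp src tgt lam (Psi t) s ≤ Psi t s - 1 / (1 + lam) := by
  rw [stepOp_ns src tgt lam _ s hs]
  have hr := rate_pos lam hlam s hs
  have h1 : ∑ v, br src tgt lam (Psi t) s v ≤ Psi t s * rate lam s - ∑ v, ((s v).act : ℝ) := by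
    rw [rate_eq, mul_sum, ← sum_sub_distrib]
    refine sum_le_sum fun v _ => ?_
    rw [br_eq src tgt lam hlam]
    by_cases hv : 0 < (s v).act
    · have h2 := hd v s hv
      have h3 : (1 + lam) * top src tgt lam v (Psi t) s ≤ (1 + lam) * Psi t s - 1 := by
        calc (1 + lam) * top src tgt lam v (Psi t) s ≤ (1 + lam) * (Psi t s - 1 / (1 + lam)) := by
              gcongr
          _ = _ := by
              have : (1 + lam) ≠ 0 := by positivity
              field_simp
      have h4 : ((s v).act : ℝ) * ((1 + lam) * top src tgt lam v (Psi t) s - lam * Psi t s) ≤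
          ((s v).act : ℝ) * (Psi t s - 1) := by
        apply mul_le_mul_of_nonneg_left _ (Nat.cast_nonneg _)
        linarith
      split_ifs <;> linarith
    · have h0 : (s v).act = 0 := by omega
      have h1 : s v ≠ Site.active 1 := fun h => by rw [h] at h0; simp [Site.act] at h0
      rw [if_neg h1, if_neg h1, h0]
      simp
  rw [div_le_iff₀ hr]
  have h5 := rate_le lam hlam s
  have h6 : 1 / (1 + lam) * rate lam s ≤ ∑ v, ((s v).act : ℝ) := by
    rw [one_div, inv_mul_le_iff₀ (by positivity)]
    exact h5
  calc ∑ v, br src tgt lam (Psi t) s v ≤ Psi t s * rate lam s - ∑ v, ((s v).act : ℝ) := h1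
    _ ≤ Psi t s * rate lam s - 1 / (1 + lam) * rate lam s := by linarith
    _ = _ := by ring

lemma iterate_sub (f g : Conf V → ℝ) (n : ℕ) :
    (stepOp src tgt lam)^[n] (fun x => f x - g x) =
      fun s => (stepOp src tgt lam)^[n] f s - (stepOp src tgt lam)^[n] g s := by
  induction n with
  | zero => rfl
  | succ n ih =>
    rw [Function.iterate_succ_apply', ih]
    funext s
    rw [stepOp_sub, Function.iterate_succ_apply' (stepOp src tgt lam) n f,
      Function.iterate_succ_apply' (stepOp src tgt lam) n g]

lemma iterate_L (hlam : 0 < lam) (A : Conf V → Prop) (L : Conf V → ℝ)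
    (hL : IsVal src tgt lam A L) (n : ℕ) : (stepOp src tgt lam)^[n] L = L := by
  induction n with
  | zero => rfl
  | succ n ih =>
    rw [Function.iterate_succ_apply', ih]
    funext s
    exact stepOp_L src tgt lam hlam A L hL s

end

theorem tJump : TaskDrift → TaskJump := by
  classical
  intro hDrift V E _ _ _ _ src tgt lam t hlam ht hout A L hL η
  obtain ⟨d1, d2, d3, d4, d5, d6⟩ := hDrift V E src tgt lam t hlam ht hout
  set ind : Conf V → ℝ := fun σ => if Stable σ ∧ A σ then (1 : ℝ) else 0 with hind
  set R : Conf V → ℝ := fun σ => L σ - ind σ with hR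
  have hprob : ∀ n, probBy src tgt lam A n η = (stepOp src tgt lam)^[n] ind η := by
    intro n
    unfold probBy
    have : (fun σ => if Stable σ ∧ A σ then (1 : ℝ) else 0) = ind := by
      funext σ
      rw [hind]
    convert rfl using 3
  have hit : ∀ n, (stepOp src tgt lam)^[n] R η = L η - (stepOp src tgt lam)^[n] ind η := by
    intro n
    have := congrFun (iterate_sub src tgt lam L ind n) η
    rw [iterate_L src tgt lam hlam A L hL n] at this
    exact this
  have R_st : ∀ σ, Stable σ → R σ = 0 := by
    intro σ hσ
    simp only [hR, hind]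
    by_cases hA : A σ
    · rw [if_pos ⟨hσ, hA⟩, hL.stable_one σ hσ hA, sub_self]
    · rw [if_neg (fun h => hA h.2), hL.stable_zero σ hσ hA, sub_self]
  have R_ns : ∀ σ, ¬ Stable σ → R σ = L σ := by
    intro σ hσ
    simp only [hR, hind]
    rw [if_neg (fun h => hσ h.1), sub_zero]
  have R_nonneg : ∀ σ, 0 ≤ R σ := by
    intro σ
    by_cases hσ : Stable σ
    · rw [R_st σ hσ]
    · rw [R_ns σ hσ]; exact hL.nonneg σ
  have R_le : ∀ σ, R σ ≤ Psi t σ := by
    intro σ
    by_cases hσ : Stable σ
    · rw [R_st σ hσ]; exact d4 σ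
    · rw [R_ns σ hσ]; exact (hL.le_one σ).trans (d5 σ hσ)
  have It_st : ∀ n σ, Stable σ → (stepOp src tgt lam)^[n] R σ = 0 := by
    intro n
    induction n with
    | zero => exact R_st
    | succ n ih =>
      intro σ hσ
      rw [Function.iterate_succ_apply', stepOp_st src tgt lam _ σ hσ]
      exact ih σ hσ
  have It_nonneg : ∀ n σ, 0 ≤ (stepOp src tgt lam)^[n] R σ := by
    intro n
    induction n with
    | zero => exact R_nonneg
    | succ n ih =>
      intro σ
      rw [Function.iterate_succ_apply']
      by_cases hσ : Stable σ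
      · rw [stepOp_st src tgt lam _ σ hσ]; exact ih σ
      · have := stepOp_mono src tgt lam hlam (fun _ => (0 : ℝ)) ((stepOp src tgt lam)^[n] R) σ hσ
          (fun v z _ => ih _) (fun v _ => ih _)
        rwa [stepOp_zero] at this
  obtain ⟨K₀, hK₀⟩ := d6 (total η)
  set p : ℝ := 1 / (1 + lam) with hp
  have hp0 : 0 < p := by positivity
  set K : ℝ := max p K₀ with hK
  have hKpos : 0 < K := lt_of_lt_of_le hp0 (le_max_left _ _)
  set q : ℝ := 1 - p / K with hq
  have hq0 : 0 ≤ q := by
    have : p / K ≤ 1 := by
      rw [div_le_one hKpos]; exact le_max_left _ _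
    linarith
  have hq1 : q < 1 := by
    have : 0 < p / K := by positivity
    linarith
  have It_le : ∀ n σ, total σ ≤ total η → (stepOp src tgt lam)^[n] R σ ≤ q ^ n * Psi t σ := by
    intro n
    induction n with
    | zero =>
      intro σ _
      simpa using R_le σ
    | succ n ih =>
      intro σ hσ
      by_cases hs : Stable σ
      · rw [It_st (n + 1) σ hs]
        exact mul_nonneg (pow_nonneg hq0 _) (d4 σ)
      · rw [Function.iterate_succ_apply']
        have h1 := stepOp_mono src tgt lam hlam ((stepOp src tgt lam)^[n] R)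
          (fun x => q ^ n * Psi t x) σ hs
          (fun v z hv => ih _ ((d3 v z σ hv).trans hσ)) (fun v hv => ih _ ((d2 v σ).trans hσ))
        rw [stepOp_smul] at h1
        have h2 := stepOp_Psi src tgt lam hlam t d1 σ hs
        have h3 : Psi t σ ≤ K := (hK₀ σ hσ).trans (le_max_right _ _)
        have h4 : Psi t σ - p ≤ q * Psi t σ := by
          have : p / K * Psi t σ ≤ p := by
            calc p / K * Psi t σ ≤ p / K * K := by gcongr
              _ = p := by field_simp
          rw [hq]; linarith
        calc stepOp src tgt lam ((stepOp src tgt lam)^[n] R) σ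
            ≤ q ^ n * stepOp src tgt lam (Psi t) σ := h1
          _ ≤ q ^ n * (q * Psi t σ) := by
              apply mul_le_mul_of_nonneg_left _ (pow_nonneg hq0 _)
              exact h2.trans h4
          _ = _ := by ring
  constructor
  · intro n
    rw [hprob n]
    have := hit n
    have h0 := It_nonneg n η
    linarith
  · have h1 : ∀ n, probBy src tgt lam A n η = L η - (stepOp src tgt lam)^[n] R η := by
      intro n
      rw [hprob n, hit n]; ring
    have h2 : Filter.Tendsto (fun n => (stepOp src tgt lam)^[n] R η) Filter.atTop (nhds 0) := by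
      refine squeeze_zero (fun n => It_nonneg n η) (fun n => It_le n η le_rfl) ?_
      have := (tendsto_pow_atTop_nhds_zero_of_lt_one hq0 hq1).mul_const (Psi t η)
      simpa using this
    have h3 := (tendsto_const_nhds (x := L η)).sub h2
    rw [sub_zero] at h3
    exact h3.congr fun n => (h1 n).symm

end H542ARW.Jump
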