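import Pool.Agent.H542R3.ARW.Stmts

/-! Existence of a Lyapunov weight. -/

namespace H542ARW

open Finset

/-- there is a directed path of length `n` from `a` to the sink -/
def lyReach {V E : Type} (src : E → V) (tgt : E → Option V) : ℕ → Option V → Prop
  | 0, a => a = none
  | n + 1, a => ∃ e : E, some (src e) = a ∧ lyReach src tgt n (tgt e)

lemma ly_exists {V E : Type} (src : E → V) (tgt : E → Option V) (a : Option V)
    (h : Relation.ReflTransGen (fun a b : Option V => ∃ e : E, some (src e) = a ∧ tgt e = b)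
      a none) : ∃ n, lyReach src tgt n a := by
  induction h using Relation.ReflTransGen.head_induction_on with
  | refl => exact ⟨0, rfl⟩
  | head hab _ ih =>
    obtain ⟨e, he1, he2⟩ := hab
    obtain ⟨n, hn⟩ := ih
    exact ⟨n + 1, e, he1, by rw [he2]; exact hn⟩

lemma ly_dist {V E : Type} (src : E → V) (tgt : E → Option V) (h : ToSink src tgt) :
    ∃ d : Option V → ℕ, d none = 0 ∧
      ∀ v : V, ∃ e : E, src e = v ∧ d (tgt e) < d (some v) := by
  classical
  have hex : ∀ a : Option V, ∃ n, lyReach src tgt n a := by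
    intro a
    cases a with
    | none => exact ⟨0, rfl⟩
    | some v => exact ly_exists src tgt _ (h v)
  refine ⟨fun a => Nat.find (hex a), ?_, ?_⟩
  · exact (Nat.find_eq_zero (hex none)).2 rfl
  · intro v
    have hs := Nat.find_spec (hex (some v))
    obtain ⟨n, hn⟩ : ∃ n, Nat.find (hex (some v)) = n + 1 := by
      rcases Nat.eq_zero_or_pos (Nat.find (hex (some v))) with h0 | h0
      · rw [h0] at hs
        exact absurd hs (by simp [lyReach])
      · exact ⟨Nat.find (hex (some v)) - 1, by omega⟩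
    rw [hn] at hs
    obtain ⟨e, he1, he2⟩ := hs
    refine ⟨e, Option.some_injective _ he1, ?_⟩
    show Nat.find (hex (tgt e)) < Nat.find (hex (some v))
    have := Nat.find_min' (hex (tgt e)) he2
    omega

theorem tLyap : TaskLyap := by
  intro V E _ _ _ _ src tgt hsink
  classical
  obtain ⟨d, hd0, hd⟩ := ly_dist src tgt hsink
  obtain ⟨D, hD⟩ : ∃ D : ℕ, ∀ v : V, d (some v) ≤ D :=
    ⟨∑ v : V, d (some v), fun v =>
      Finset.single_le_sum (f := fun v => d (some v)) (fun _ _ => Nat.zero_le _) (mem_univ v)⟩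
  set α : ℝ := 1 / ((Fintype.card E : ℝ) + 1) with hα
  have hcE : (0 : ℝ) ≤ (Fintype.card E : ℝ) := Nat.cast_nonneg _
  have hαpos : 0 < α := by rw [hα]; positivity
  have hα1 : α ≤ 1 := by
    rw [hα, div_le_one (by positivity)]
    linarith
  set δ : ℝ := α / 2 with hδ
  have hδpos : 0 < δ := by rw [hδ]; positivity
  have hδhalf : δ ≤ 1 / 2 := by rw [hδ]; linarith
  have hδ1 : δ ≤ 1 := by linarith
  set M : ℝ := 2 / δ ^ D with hM
  have hDpos : 0 < δ ^ D := pow_pos hδpos D
  have hMpos : 0 < M := by rw [hM]; positivity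
  have hM2 : 2 ≤ M := by
    rw [hM, le_div_iff₀ hDpos]
    have : δ ^ D ≤ 1 := pow_le_one₀ hδpos.le hδ1
    linarith
  have hpowpos : ∀ n : ℕ, 0 < δ ^ n := fun n => pow_pos hδpos n
  have hpow : ∀ n : ℕ, n ≤ D → 2 ≤ M * δ ^ n := by
    intro n hn
    have h1 : δ ^ D ≤ δ ^ n := pow_le_pow_of_le_one hδpos.le hδ1 hn
    calc (2 : ℝ) = M * δ ^ D := by rw [hM]; field_simp
      _ ≤ M * δ ^ n := mul_le_mul_of_nonneg_left h1 hMpos.le
  refine ⟨fun a => M * (1 - δ ^ d a), ?_, ?_, ?_⟩
  · simp [hd0]
  · intro v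
    obtain ⟨e, _, he⟩ := hd v
    have hpos : 1 ≤ d (some v) := by omega
    have h1 : δ ^ d (some v) ≤ δ ^ 1 := pow_le_pow_of_le_one hδpos.le hδ1 hpos
    rw [pow_one] at h1
    show 1 ≤ M * (1 - δ ^ d (some v))
    nlinarith
  · intro v
    obtain ⟨e, hev, he⟩ := hd v
    have hmem : e ∈ out src v := by simp [out, hev]
    have hcpos : (0 : ℝ) < ((out src v).card : ℝ) := by
      exact_mod_cast Finset.card_pos.2 ⟨e, hmem⟩
    have hcle : ((out src v).card : ℝ) ≤ (Fintype.card E : ℝ) := by
      exact_mod_cast Finset.card_le_univ _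
    show avg src tgt v (fun a => M * (1 - δ ^ d a)) ≤ M * (1 - δ ^ d (some v)) - 1
    unfold avg
    rw [div_le_iff₀ hcpos]
    set c : ℝ := ((out src v).card : ℝ) with hc
    -- bound of the sum
    have hsum : ∑ e' ∈ out src v, M * (1 - δ ^ d (tgt e')) ≤ M * c - M * δ ^ d (tgt e) := by
      rw [← Finset.add_sum_erase _ _ hmem]
      have h2 : ∑ e' ∈ (out src v).erase e, M * (1 - δ ^ d (tgt e')) ≤
          ∑ e' ∈ (out src v).erase e, M := by
        apply Finset.sum_le_sum
        intro e' _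
        have := (hpowpos (d (tgt e'))).le
        nlinarith
      have h3 : ∑ e' ∈ (out src v).erase e, M = (c - 1) * M := by
        rw [Finset.sum_const, nsmul_eq_mul, Finset.card_erase_of_mem hmem]
        have : 1 ≤ (out src v).card := Finset.card_pos.2 ⟨e, hmem⟩
        rw [Nat.cast_sub this, Nat.cast_one]
      rw [h3] at h2
      linarith
    refine hsum.trans ?_
    -- now `δ ^ d (tgt e) ≥ δ ^ (d v) / δ`
    have hdle : d (tgt e) + 1 ≤ d (some v) := by omega
    have h4 : δ ^ d (some v) ≤ δ ^ (d (tgt e) + 1) :=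
      pow_le_pow_of_le_one hδpos.le hδ1 hdle
    have h4' : δ ^ d (some v) ≤ δ ^ d (tgt e) * δ := by rw [← pow_succ]; exact h4
    have h5 := hpow (d (some v)) (hD v)
    -- c * δ ≤ 1/2
    have h6 : c * δ ≤ 1 / 2 := by
      have : c * α ≤ 1 := by
        rw [hα, mul_one_div, div_le_one (by positivity)]
        linarith
      rw [hδ]
      linarith
    have h7 : 0 < δ ^ d (tgt e) := hpowpos _
    have h8 : 0 < δ ^ d (some v) := hpowpos _
    -- need: M c - M q ≤ (M (1 - p) - 1) c, i.e. M c p + c ≤ M q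
    set p := δ ^ d (some v) with hp
    set q := δ ^ d (tgt e) with hq
    have h9 : c * p ≤ q / 2 := by
      calc c * p ≤ c * (q * δ) := mul_le_mul_of_nonneg_left h4' hcpos.le
        _ = q * (c * δ) := by ring
        _ ≤ q * (1 / 2) := mul_le_mul_of_nonneg_left h6 h7.le
        _ = q / 2 := by ring
    have h10 : c * 2 ≤ c * (M * p) := mul_le_mul_of_nonneg_left h5 hcpos.le
    have h11 : M * (c * p) ≤ M * (q / 2) := mul_le_mul_of_nonneg_left h9 hMpos.le
    nlinarith

end H542ARW
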