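import Pool.Agent.H542R3.ARW.Stmts

/-! Waking up sleeping particles does not increase the value. -/

namespace H542ARW

open Finset

namespace Wake

variable {V E : Type} [Fintype V] [DecidableEq V] [Fintype E] [DecidableEq E]

/-- coupling relation -/
def Rel (s s' : Conf V) : Prop :=
  ∀ v, s' v = s v ∨ (s v = Site.asleep ∧ s' v = Site.active 1)

/-- coupled toppling -/
noncomputable def ctop (src : E → V) (tgt : E → Option V) (lam : ℝ) (u : V)
    (x : Conf V × Conf V) (F : Conf V × Conf V → ℝ) : ℝ :=
  lam / (1 + lam) * F (slpAt x.1 u, slpAt x.2 u)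
    + 1 / (1 + lam) * avg src tgt u
      (fun z => F (addAt (remAt x.1 u) z, addAt (remAt x.2 u) z))

theorem avg_mono (src : E → V) (tgt : E → Option V) (v : V) (F G : Option V → ℝ)
    (h : ∀ z, F z ≤ G z) : avg src tgt v F ≤ avg src tgt v G := by
  unfold avg
  apply div_le_div_of_nonneg_right _ (Nat.cast_nonneg _)
  exact Finset.sum_le_sum fun e _ => h _

theorem avg_smul (src : E → V) (tgt : E → Option V) (v : V) (c : ℝ) (F : Option V → ℝ) :
    avg src tgt v (fun z => c * F z) = c * avg src tgt v F := by
  unfold avg
  rw [← Finset.mul_sum, mul_div_assoc]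

theorem avg_sub (src : E → V) (tgt : E → Option V) (v : V) (F G : Option V → ℝ) :
    avg src tgt v (fun z => F z - G z) = avg src tgt v F - avg src tgt v G := by
  unfold avg
  rw [Finset.sum_sub_distrib, sub_div]

theorem top_mono (src : E → V) (tgt : E → Option V) (lam : ℝ) (hlam : 0 < lam) (v : V)
    (f g : Conf V → ℝ) (s : Conf V) (h1 : f (slpAt s v) ≤ g (slpAt s v))
    (h2 : ∀ z, f (addAt (remAt s v) z) ≤ g (addAt (remAt s v) z)) :
    top src tgt lam v f s ≤ top src tgt lam v g s := by
  unfold top
  have a1 : 0 ≤ lam / (1 + lam) := by positivity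
  have a2 : 0 ≤ 1 / (1 + lam) := by positivity
  exact add_le_add (mul_le_mul_of_nonneg_left h1 a1)
    (mul_le_mul_of_nonneg_left (avg_mono _ _ _ _ _ h2) a2)

theorem top_smul (src : E → V) (tgt : E → Option V) (lam : ℝ) (v : V) (c : ℝ)
    (f : Conf V → ℝ) (s : Conf V) :
    top src tgt lam v (fun y => c * f y) s = c * top src tgt lam v f s := by
  unfold top
  rw [avg_smul]
  ring

theorem sleepers_eq (s : Conf V) :
    sleepers s = ∑ v, (if s v = Site.asleep then 1 else 0) := by
  unfold sleepers
  rw [Finset.card_filter]

theorem sleepers_le (s : Conf V) : sleepers s ≤ total s := by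
  rw [sleepers_eq]
  unfold total
  apply Finset.sum_le_sum
  intro v _
  by_cases h : s v = Site.asleep
  · rw [if_pos h, h]
    exact le_refl _
  · rw [if_neg h]
    exact Nat.zero_le _

theorem sleepers_stable (s : Conf V) (hs : Stable s) : sleepers s = total s := by
  rw [sleepers_eq]
  unfold total
  apply Finset.sum_congr rfl
  intro v _
  have h0 := hs v
  cases hv : s v with
  | active k =>
    rw [hv] at h0
    have hk : k = 0 := h0
    subst hk
    simp [Site.num]
  | asleep => simp [Site.num]

theorem total_rel (s s' : Conf V) (h : Rel s s') : total s' = total s := by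
  unfold total
  apply Finset.sum_congr rfl
  intro v _
  rcases h v with h1 | ⟨h1, h2⟩
  · rw [h1]
  · rw [h1, h2]
    rfl

theorem rel_slp (s s' : Conf V) (h : Rel s s') (u : V) (hu : s' u = s u) :
    Rel (slpAt s u) (slpAt s' u) := by
  intro v
  unfold slpAt
  by_cases hv : v = u
  · subst hv
    left
    simp [hu]
  · simp only [Function.update_of_ne hv]
    exact h v

theorem rel_rem (s s' : Conf V) (h : Rel s s') (u : V) (hu : s' u = s u) :
    Rel (remAt s u) (remAt s' u) := by
  intro v
  unfold remAt
  by_cases hv : v = u
  · subst hv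
    left
    simp [hu]
  · simp only [Function.update_of_ne hv]
    exact h v

theorem rel_add (s s' : Conf V) (h : Rel s s') (z : Option V) :
    Rel (addAt s z) (addAt s' z) := by
  cases z with
  | none => exact h
  | some w =>
    intro v
    unfold addAt
    by_cases hv : v = w
    · subst hv
      left
      simp only [Function.update_self]
      rcases h v with h1 | ⟨h1, h2⟩
      · rw [h1]
      · rw [h1, h2]
        rfl
    · simp only [Function.update_of_ne hv]
      exact h v

theorem not_stable_iff (s : Conf V) (hs : ¬ Stable s) : ∃ u, 0 < (s u).act := by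
  unfold Stable at hs
  push Not at hs
  obtain ⟨u, hu⟩ := hs
  exact ⟨u, Nat.pos_of_ne_zero hu⟩

/-- Step 1. -/
theorem small_zero (hMin : TaskMin) (hD : TaskDrift) (src : E → V) (tgt : E → Option V)
    (lam : ℝ) (t : Option V → ℝ) (hlam : 0 < lam) (ht : Lyap src tgt t)
    (hout : ∀ v, (out src v).Nonempty) (k : ℕ) (L : Conf V → ℝ)
    (hL : IsVal src tgt lam (fun s => k ≤ sleepers s) L) (s : Conf V) (hs : total s < k) :
    L s = 0 := by
  obtain ⟨d1, d2, d3, d4, d5, d6⟩ := hD V E src tgt lam t hlam ht hout
  obtain ⟨K, hK⟩ := d6 k
  have key := hMin (Conf V) (fun s => total s < k) (fun s => - L s) (Psi t) K (1 / (1 + lam)) 1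
    (by positivity)
    (fun x hx => ⟨d4 x, hK x (le_of_lt hx)⟩)
    (by
      intro x hx
      by_cases hst : Stable x
      · have h0 : L x = 0 := by
          apply hL.stable_zero x hst
          have := sleepers_le x
          omega
        have := d4 x
        rw [h0]
        linarith
      · have h1 := hL.le_one x
        have h2 := d5 x hst
        linarith)
    (by
      intro x hx
      by_cases hst : Stable x
      · left
        have h0 : L x = 0 := by
          apply hL.stable_zero x hst
          have := sleepers_le x
          omega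
        simp [h0]
      · right
        obtain ⟨u, hu⟩ := not_stable_iff x hst
        refine ⟨fun f => top src tgt lam u f x, ?_, ?_, ?_, ?_⟩
        · intro f g hfg
          apply top_mono src tgt lam hlam u f g x
          · exact hfg _ (lt_of_le_of_lt (d2 u x) hx)
          · intro z
            exact hfg _ (lt_of_le_of_lt (d3 u z x hu) hx)
        · intro c f
          exact top_smul src tgt lam u c f x
        · have h1 := hL.inv x u hu
          have h2 : top src tgt lam u (fun s => - L s) x = - top src tgt lam u L x := by
            have := top_smul src tgt lam u (-1) L x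
            simpa using this
          show top src tgt lam u (fun s => - L s) x ≤ - L x
          rw [h2, ← h1]
        · exact d1 u x hu)
    s hs
  have h1 := hL.nonneg s
  have h2 : 0 ≤ - L s := key
  linarith

end Wake

open Wake in
theorem tWake : TaskMin → TaskDrift → TaskWake := by
  intro hMin hD V E _ _ _ _ src tgt lam t hlam ht hout k L hL s s' hss
  obtain ⟨d1, d2, d3, d4, d5, d6⟩ := hD V E src tgt lam t hlam ht hout
  obtain ⟨K, hK⟩ := d6 (total s)
  have hstab : ∀ x : Conf V × Conf V, Rel x.1 x.2 → Stable x.1 → 0 ≤ L x.1 - L x.2 := by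
    intro x hx hst
    by_cases hk : k ≤ sleepers x.1
    · have h1 := hL.stable_one x.1 hst hk
      have h2 := hL.le_one x.2
      linarith
    · have h1 := sleepers_stable x.1 hst
      have h2 := total_rel x.1 x.2 hx
      have h3 : L x.2 = 0 :=
        small_zero hMin hD src tgt lam t hlam ht hout k L hL x.2 (by omega)
      have h4 := hL.nonneg x.1
      linarith
  have key := hMin (Conf V × Conf V) (fun x => Rel x.1 x.2 ∧ total x.1 ≤ total s)
    (fun x => L x.1 - L x.2) (fun x => Psi t x.1) K (1 / (1 + lam)) 1 (by positivity)
    (fun x hx => ⟨d4 x.1, hK x.1 hx.2⟩)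
    (by
      intro x hx
      by_cases hst : Stable x.1
      · have h1 := hstab x hx.1 hst
        have h2 := d4 x.1
        linarith
      · have h1 := hL.le_one x.2
        have h2 := d5 x.1 hst
        have h3 := hL.nonneg x.1
        linarith)
    (by
      intro x hx
      by_cases hst : Stable x.1
      · left
        exact hstab x hx.1 hst
      · right
        obtain ⟨u, hu⟩ := not_stable_iff x.1 hst
        have hu' : x.2 u = x.1 u := by
          rcases hx.1 u with h1 | ⟨h1, h2⟩
          · exact h1
          · rw [h1] at hu
            exact absurd hu (lt_irrefl 0)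
        have a1 : 0 ≤ lam / (1 + lam) := by positivity
        have a2 : 0 ≤ 1 / (1 + lam) := by positivity
        refine ⟨ctop src tgt lam u x, ?_, ?_, ?_, ?_⟩
        · intro f g hfg
          unfold ctop
          refine add_le_add (mul_le_mul_of_nonneg_left ?_ a1)
            (mul_le_mul_of_nonneg_left (avg_mono _ _ _ _ _ ?_) a2)
          · exact hfg _ ⟨rel_slp x.1 x.2 hx.1 u hu', le_trans (d2 u x.1) hx.2⟩
          · intro z
            exact hfg _ ⟨rel_add _ _ (rel_rem x.1 x.2 hx.1 u hu') z,
              le_trans (d3 u z x.1 hu) hx.2⟩
        · intro c f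
          unfold ctop
          rw [avg_smul]
          ring
        · have h1 := hL.inv x.1 u hu
          have h2 := hL.inv x.2 u (by rw [hu']; exact hu)
          have h3 : ctop src tgt lam u x (fun y => L y.1 - L y.2)
              = top src tgt lam u L x.1 - top src tgt lam u L x.2 := by
            unfold ctop top
            simp only
            rw [avg_sub]
            ring
          rw [h3, ← h1, ← h2]
        · exact d1 u x.1 hu)
    (s, s') ⟨hss, le_refl _⟩
  have h2 : 0 ≤ L s - L s' := key
  linarith

end H542ARW
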