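import Pool.Agent.H542R3.ARW.Main
import Pool.Agent.H542R3.ARW.TaskJump
import Pool.Agent.H542R3.ARW.TaskBellman
import Pool.Agent.H542R3.ARW.TaskWake
import Pool.Agent.H542R3.ARW.TaskLyap

/-! Driven chain: adding particles and stabilising. -/

set_option linter.unusedSectionVars false

namespace H542ARW

open Finset Filter

/-- Expected value of `f` at the final configuration of activated random walk started at `σ`:
supremum over `n` of the expected value, after `n` events of the jump chain, of `f` on the event
that the configuration is stable. -/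
noncomputable def stab {V E : Type} [Fintype V] [DecidableEq V] [Fintype E] [DecidableEq E]
    (src : E → V) (tgt : E → Option V) (lam : ℝ) (f : Conf V → ℝ) (σ : Conf V) : ℝ :=
  ⨆ n : ℕ, ((stepOp src tgt lam)^[n] (fun τ => if Stable τ then f τ else 0)) σ

/-- One step of the driven chain: `driven f w` is the expected value of `f` at the next state of
the chain, when its state is `w` (an active particle is added at a uniform site, then the
configuration is stabilised). -/
noncomputable def driven {V E : Type} [Fintype V] [DecidableEq V] [Fintype E] [DecidableEq E]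
    (src : E → V) (tgt : E → Option V) (lam : ℝ) (f : Conf V → ℝ) (w : Conf V) : ℝ :=
  (∑ v : V, stab src tgt lam f (addAt w (some v))) / (Fintype.card V : ℝ)

variable {V E : Type} [Fintype V] [DecidableEq V] [Fintype E] [DecidableEq E]

/-- bounded invariants of all legal topplings -/
structure Inva (src : E → V) (tgt : E → Option V) (lam : ℝ) (F : Conf V → ℝ) (B : ℝ) : Prop where
  inv : ∀ σ v, 0 < (σ v).act → F σ = top src tgt lam v F σ
  nonneg : ∀ σ, 0 ≤ F σ
  le : ∀ σ, F σ ≤ B

theorem stepOp_inv {src : E → V} {tgt : E → Option V} {lam : ℝ} (hlam : 0 < lam)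
    {F : Conf V → ℝ} (hF : ∀ σ v, 0 < (σ v).act → F σ = top src tgt lam v F σ) (s : Conf V) :
    stepOp src tgt lam F s = F s := by
  by_cases hs : Stable s
  · exact Jump.stepOp_st src tgt lam F s hs
  · rw [Jump.stepOp_ns src tgt lam F s hs]
    have hr := Jump.rate_pos lam hlam s hs
    rw [div_eq_iff hr.ne', Jump.rate_eq, mul_sum]
    refine sum_congr rfl fun v _ => ?_
    rw [Jump.br_eq src tgt lam hlam]
    by_cases hv : 0 < (s v).act
    · rw [← hF s v hv]
      split_ifs <;> ring
    · have h0 : (s v).act = 0 := by omega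
      have h1 : s v ≠ Site.active 1 := fun h => by rw [h] at h0; simp [Site.act] at h0
      rw [if_neg h1, if_neg h1, h0]
      simp

theorem iterate_inv {src : E → V} {tgt : E → Option V} {lam : ℝ} (hlam : 0 < lam)
    {F : Conf V → ℝ} (hF : ∀ σ v, 0 < (σ v).act → F σ = top src tgt lam v F σ) (n : ℕ) :
    (stepOp src tgt lam)^[n] F = F := by
  induction n with
  | zero => rfl
  | succ n ih =>
    rw [Function.iterate_succ_apply', ih]
    funext s
    exact stepOp_inv hlam hF s

/-- the value of an invariant is the expectation of its final value -/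
theorem stab_eq {src : E → V} {tgt : E → Option V} {lam : ℝ} {t : Option V → ℝ} (hlam : 0 < lam)
    (ht : Lyap src tgt t) (hne : ∀ v, (out src v).Nonempty) {F : Conf V → ℝ} {B : ℝ}
    (hF : Inva src tgt lam F B) (f : Conf V → ℝ) (hf : ∀ σ, Stable σ → f σ = F σ)
    (η : Conf V) : stab src tgt lam f η = F η := by
  classical
  obtain ⟨d1, d2, d3, d4, d5, d6⟩ := tDrift V E src tgt lam t hlam ht hne
  have hB : 0 ≤ B := (hF.nonneg η).trans (hF.le η)
  set ind : Conf V → ℝ := fun τ => if Stable τ then f τ else 0 with hind
  set R : Conf V → ℝ := fun σ => F σ - ind σ with hR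
  have hit : ∀ n, (stepOp src tgt lam)^[n] R η = F η - (stepOp src tgt lam)^[n] ind η := by
    intro n
    have := congrFun (Jump.iterate_sub src tgt lam F ind n) η
    rw [iterate_inv hlam hF.inv n] at this
    exact this
  have R_st : ∀ σ, Stable σ → R σ = 0 := by
    intro σ hσ
    simp only [hR, hind]
    rw [if_pos hσ, hf σ hσ, sub_self]
  have R_ns : ∀ σ, ¬ Stable σ → R σ = F σ := by
    intro σ hσ
    simp only [hR, hind]
    rw [if_neg hσ, sub_zero]
  have R_nonneg : ∀ σ, 0 ≤ R σ := by
    intro σ
    by_cases hσ : Stable σ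
    · rw [R_st σ hσ]
    · rw [R_ns σ hσ]; exact hF.nonneg σ
  have R_le : ∀ σ, R σ ≤ B * Psi t σ := by
    intro σ
    by_cases hσ : Stable σ
    · rw [R_st σ hσ]; exact mul_nonneg hB (d4 σ)
    · rw [R_ns σ hσ]
      have h1 := d5 σ hσ
      have h2 := hF.le σ
      nlinarith
  have It_st : ∀ n σ, Stable σ → (stepOp src tgt lam)^[n] R σ = 0 := by
    intro n
    induction n with
    | zero => exact R_st
    | succ n ih =>
      intro σ hσ
      rw [Function.iterate_succ_apply', Jump.stepOp_st src tgt lam _ σ hσ]
      exact ih σ hσ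
  have It_nonneg : ∀ n σ, 0 ≤ (stepOp src tgt lam)^[n] R σ := by
    intro n
    induction n with
    | zero => exact R_nonneg
    | succ n ih =>
      intro σ
      rw [Function.iterate_succ_apply']
      by_cases hσ : Stable σ
      · rw [Jump.stepOp_st src tgt lam _ σ hσ]; exact ih σ
      · have := Jump.stepOp_mono src tgt lam hlam (fun _ => (0 : ℝ))
          ((stepOp src tgt lam)^[n] R) σ hσ (fun v z _ => ih _) (fun v _ => ih _)
        rwa [Jump.stepOp_zero] at this
  obtain ⟨K₀, hK₀⟩ := d6 (total η)
  set p : ℝ := 1 / (1 + lam) with hp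
  have hp0 : 0 < p := by positivity
  set K : ℝ := max p K₀ with hK
  have hKpos : 0 < K := lt_of_lt_of_le hp0 (le_max_left _ _)
  set q : ℝ := 1 - p / K with hq
  have hq0 : 0 ≤ q := by
    have : p / K ≤ 1 := by
      rw [div_le_one hKpos]; exact le_max_left _ _
    linarith
  have hq1 : q < 1 := by
    have : 0 < p / K := by positivity
    linarith
  have It_le : ∀ n σ, total σ ≤ total η →
      (stepOp src tgt lam)^[n] R σ ≤ (B * q ^ n) * Psi t σ := by
    intro n
    induction n with
    | zero =>
      intro σ _
      simpa using R_le σ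
    | succ n ih =>
      intro σ hσ
      have hBq : 0 ≤ B * q ^ n := mul_nonneg hB (pow_nonneg hq0 _)
      by_cases hs : Stable σ
      · rw [It_st (n + 1) σ hs]
        exact mul_nonneg (mul_nonneg hB (pow_nonneg hq0 _)) (d4 σ)
      · rw [Function.iterate_succ_apply']
        have h1 := Jump.stepOp_mono src tgt lam hlam ((stepOp src tgt lam)^[n] R)
          (fun x => (B * q ^ n) * Psi t x) σ hs
          (fun v z hv => ih _ ((d3 v z σ hv).trans hσ)) (fun v hv => ih _ ((d2 v σ).trans hσ))
        rw [Jump.stepOp_smul] at h1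
        have h2 := Jump.stepOp_Psi src tgt lam hlam t d1 σ hs
        have h3 : Psi t σ ≤ K := (hK₀ σ hσ).trans (le_max_right _ _)
        have h4 : Psi t σ - p ≤ q * Psi t σ := by
          have : p / K * Psi t σ ≤ p := by
            calc p / K * Psi t σ ≤ p / K * K := by gcongr
              _ = p := by field_simp
          rw [hq]; linarith
        calc stepOp src tgt lam ((stepOp src tgt lam)^[n] R) σ
            ≤ (B * q ^ n) * stepOp src tgt lam (Psi t) σ := h1
          _ ≤ (B * q ^ n) * (q * Psi t σ) := by
              apply mul_le_mul_of_nonneg_left _ hBq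
              exact h2.trans h4
          _ = _ := by ring
  have hval : ∀ n, (stepOp src tgt lam)^[n] ind η = F η - (stepOp src tgt lam)^[n] R η := by
    intro n
    rw [hit n]; ring
  have h2 : Filter.Tendsto (fun n => (stepOp src tgt lam)^[n] R η) Filter.atTop (nhds 0) := by
    refine squeeze_zero (fun n => It_nonneg n η) (fun n => It_le n η le_rfl) ?_
    have := ((tendsto_pow_atTop_nhds_zero_of_lt_one hq0 hq1).const_mul B).mul_const (Psi t η)
    simpa using this
  have h3 : Filter.Tendsto (fun n => (stepOp src tgt lam)^[n] ind η) Filter.atTop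
      (nhds (F η)) := by
    have := (tendsto_const_nhds (x := F η)).sub h2
    rw [sub_zero] at this
    exact this.congr fun n => (hval n).symm
  have hle : ∀ n, (stepOp src tgt lam)^[n] ind η ≤ F η := by
    intro n
    rw [hval n]
    have := It_nonneg n η
    linarith
  unfold stab
  apply le_antisymm
  · exact ciSup_le hle
  · exact le_of_tendsto' h3 (fun n => le_ciSup
      (f := fun n : ℕ => (stepOp src tgt lam)^[n] ind η) ⟨F η, by rintro _ ⟨n, rfl⟩; exact hle n⟩ n)

/-- add a particle at a uniform site -/
noncomputable def unif (F : Conf V → ℝ) (σ : Conf V) : ℝ :=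
  (∑ v : V, F (addAt σ (some v))) / (Fintype.card V : ℝ)

theorem top_add (src : E → V) (tgt : E → Option V) (lam : ℝ) (u : V) (f g : Conf V → ℝ)
    (σ : Conf V) : top src tgt lam u (fun τ => f τ + g τ) σ =
      top src tgt lam u f σ + top src tgt lam u g σ := by
  unfold top
  rw [avg_add]; ring

theorem top_sum (src : E → V) (tgt : E → Option V) (lam : ℝ) (u : V) {ι : Type} [DecidableEq ι]
    (s : Finset ι) (f : ι → Conf V → ℝ) (σ : Conf V) :
    top src tgt lam u (fun τ => ∑ i ∈ s, f i τ) σ = ∑ i ∈ s, top src tgt lam u (f i) σ := by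
  induction s using Finset.induction_on with
  | empty => simp only [Finset.sum_empty]; exact top_zero src tgt lam u σ
  | insert a s ha ih =>
    have h1 : (fun τ => ∑ i ∈ insert a s, f i τ) = fun τ => f a τ + ∑ i ∈ s, f i τ := by
      funext τ; rw [Finset.sum_insert ha]
    rw [h1, top_add, ih, Finset.sum_insert ha]

theorem unif_inva [Nonempty V] {src : E → V} {tgt : E → Option V} {lam : ℝ} {F : Conf V → ℝ}
    {B : ℝ} (hF : Inva src tgt lam F B) : Inva src tgt lam (unif F) B := by
  have hcard : (0 : ℝ) < (Fintype.card V : ℝ) := by exact_mod_cast Fintype.card_pos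
  refine ⟨?_, ?_, ?_⟩
  · intro σ u hu
    have h1 : (unif F : Conf V → ℝ) =
        fun τ => (1 / (Fintype.card V : ℝ)) * ∑ v ∈ (univ : Finset V), F (addAt τ (some v)) := by
      funext τ; unfold unif; ring
    rw [h1, top_mul, top_sum]
    have h2 : ∀ v ∈ (univ : Finset V), F (addAt σ (some v)) =
        top src tgt lam u (fun τ => F (addAt τ (some v))) σ := by
      intro v _
      rw [top_addAt src tgt lam u F (some v) σ hu]
      exact hF.inv _ u (act_addAt _ _ hu)
    rw [← Finset.sum_congr rfl h2]
  · intro σ
    exact div_nonneg (Finset.sum_nonneg fun v _ => hF.nonneg _) hcard.le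
  · intro σ
    unfold unif
    rw [div_le_iff₀ hcard]
    calc ∑ v : V, F (addAt σ (some v)) ≤ ∑ v : V, B := Finset.sum_le_sum fun v _ => hF.le _
      _ = B * (Fintype.card V : ℝ) := by
          rw [Finset.sum_const, nsmul_eq_mul, Finset.card_univ]; ring

theorem driven_eq {src : E → V} {tgt : E → Option V} {lam : ℝ} {t : Option V → ℝ}
    (hlam : 0 < lam) (ht : Lyap src tgt t) (hne : ∀ v, (out src v).Nonempty) {F : Conf V → ℝ}
    {B : ℝ} (hF : Inva src tgt lam F B) (f : Conf V → ℝ) (hf : ∀ σ, Stable σ → f σ = F σ) :
    driven src tgt lam f = unif F := by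
  funext σ
  unfold driven unif
  congr 1
  apply Finset.sum_congr rfl
  intro v _
  exact stab_eq hlam ht hne hF f hf _

theorem iterate_driven [Nonempty V] {src : E → V} {tgt : E → Option V} {lam : ℝ}
    {t : Option V → ℝ} (hlam : 0 < lam) (ht : Lyap src tgt t) (hne : ∀ v, (out src v).Nonempty)
    {F : Conf V → ℝ} {B : ℝ} (hF : Inva src tgt lam F B) (f : Conf V → ℝ)
    (hf : ∀ σ, Stable σ → f σ = F σ) (k : ℕ) :
    Inva src tgt lam (unif^[k] F) B ∧
      ∀ σ, Stable σ → (driven src tgt lam)^[k] f σ = unif^[k] F σ := by
  induction k with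
  | zero => exact ⟨hF, hf⟩
  | succ k ih =>
    obtain ⟨h1, h2⟩ := ih
    rw [Function.iterate_succ_apply', Function.iterate_succ_apply']
    refine ⟨unif_inva h1, ?_⟩
    intro σ _
    rw [driven_eq hlam ht hne h1 _ h2]

/-- adding one particle to a configuration without sleeping particles increases (in law) the
final number of sleeping particles -/
theorem val_addAt_le {src : E → V} {tgt : E → Option V} {lam : ℝ}
    {t : Option V → ℝ} (hlam : 0 < lam) (ht : Lyap src tgt t) (hne : ∀ v, (out src v).Nonempty)
    (k : ℕ) (L : Conf V → ℝ) (hL : IsVal src tgt lam (fun σ => k ≤ sleepers σ) L)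
    (η : Conf V) (hη : ∀ v, η v ≠ Site.asleep) (z : Option V) : L η ≤ L (addAt η z) := by
  have key : 0 ≤ L (addAt η z) - L (addAt η none) := by
    have hW0 := hL.nonneg (addAt η none)
    refine tMin (Option V) (fun _ => True) (fun z => L (addAt η z) - L (addAt η none)) t
      (∑ v, t (some v)) 1 (L (addAt η none)) one_pos ?_ ?_ ?_ z trivial
    · intro z _
      refine ⟨lyap_nonneg ht z, ?_⟩
      cases z with
      | none =>
        rw [ht.none_eq]
        exact Finset.sum_nonneg fun v _ => lyap_nonneg ht _
      | some v =>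
        exact Finset.single_le_sum (f := fun v => t (some v)) (fun w _ => lyap_nonneg ht _)
          (Finset.mem_univ v)
    · intro z _
      cases z with
      | none => simp [ht.none_eq]
      | some v =>
        have h1 := ht.one_le v
        have h2 := hL.nonneg (addAt η (some v))
        have h3 : L (addAt η none) ≤ L (addAt η none) * t (some v) := by nlinarith
        linarith
    · intro z _
      cases z with
      | none => left; simp
      | some v =>
        right
        refine ⟨avg src tgt v, ?_, ?_, ?_, ht.drift v⟩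
        · intro f g hfg
          exact avg_mono src tgt v (fun z => hfg z trivial)
        · intro c f
          exact avg_mul src tgt v c f
        · rw [avg_sub, avg_const src tgt v (hne v)]
          have := fact_one (tWake tMin tDrift) hlam ht hne k L hL v η (hη v)
          linarith
  have h0 : addAt η none = η := rfl
  rw [h0] at key
  linarith

end H542ARW

namespace H542ARW

open Finset Filter

variable {V E : Type} [Fintype V] [DecidableEq V] [Fintype E] [DecidableEq E]

/-- configurations without sleeping particles -/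
def Awake (σ : Conf V) : Prop := ∀ v, σ v ≠ Site.asleep

theorem awake_addAt {σ : Conf V} (h : Awake σ) (z : Option V) : Awake (addAt σ z) := by
  intro v
  rw [addAt_apply]
  split_ifs
  · cases hs : σ v <;> simp [Site.add]
  · exact h v

theorem unif_mono [Nonempty V] {F G : Conf V → ℝ} (h : ∀ σ, Awake σ → F σ ≤ G σ) :
    ∀ σ, Awake σ → unif F σ ≤ unif G σ := by
  intro σ hσ
  unfold unif
  exact div_le_div_of_nonneg_right
    (Finset.sum_le_sum fun v _ => h _ (awake_addAt hσ _)) (Nat.cast_nonneg _)

theorem unif_iter_mono [Nonempty V] {F G : Conf V → ℝ} (h : ∀ σ, Awake σ → F σ ≤ G σ) (k : ℕ) :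
    ∀ σ, Awake σ → unif^[k] F σ ≤ unif^[k] G σ := by
  induction k with
  | zero => exact h
  | succ k ih =>
    rw [Function.iterate_succ_apply', Function.iterate_succ_apply']
    exact unif_mono ih

/-- If `F` does not decrease when a particle is added to a configuration without sleeping
particles, then the iterates of `unif` increase. -/
theorem unif_step [Nonempty V] {F : Conf V → ℝ}
    (h : ∀ σ, Awake σ → ∀ v : V, F σ ≤ F (addAt σ (some v))) (k : ℕ) :
    ∀ σ, Awake σ → unif^[k] F σ ≤ unif^[k + 1] F σ := by
  rw [Function.iterate_succ_apply]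
  apply unif_iter_mono
  intro σ hσ
  have hcard : (0 : ℝ) < (Fintype.card V : ℝ) := by exact_mod_cast Fintype.card_pos
  unfold unif
  rw [le_div_iff₀ hcard]
  calc F σ * (Fintype.card V : ℝ) = ∑ v : V, F σ := by
        rw [Finset.sum_const, nsmul_eq_mul, Finset.card_univ]; ring
    _ ≤ _ := Finset.sum_le_sum fun v _ => h σ hσ v

theorem sleepers_le (σ : Conf V) : sleepers σ ≤ Fintype.card V := by
  unfold sleepers
  exact (Finset.card_filter_le _ _).trans (by rw [Finset.card_univ])

/-- layer cake for a nondecreasing function of the number of sleeping particles -/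
theorem layer (φ : ℕ → ℝ) (N m : ℕ) (hm : m ≤ N) :
    φ m = φ 0 + ∑ j ∈ range N, (φ (j + 1) - φ j) * (if j + 1 ≤ m then (1 : ℝ) else 0) := by
  have h1 : ∑ j ∈ range N, (φ (j + 1) - φ j) * (if j + 1 ≤ m then (1 : ℝ) else 0) =
      ∑ j ∈ range m, (φ (j + 1) - φ j) := by
    rw [← Finset.sum_subset (Finset.range_mono hm)
      (f := fun j => (φ (j + 1) - φ j) * (if j + 1 ≤ m then (1 : ℝ) else 0))]
    · apply Finset.sum_congr rfl
      intro j hj
      rw [if_pos (by have := Finset.mem_range.1 hj; omega)]
      ring
    · intro j _ hj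
      rw [if_neg (by intro h; apply hj; exact Finset.mem_range.2 (by omega))]
      ring
  rw [h1, Finset.sum_range_sub]
  ring

/-- Monotonicity in the number of added particles, general graph. -/
theorem driven_mono [Nonempty V] {src : E → V} {tgt : E → Option V} (hG : ToSink src tgt)
    {lam : ℝ} (hlam : 0 < lam) (φ : ℕ → ℝ) (hφ : Monotone φ) (h0 : 0 ≤ φ 0) (k : ℕ) :
    (driven src tgt lam)^[k] (fun w => φ (sleepers w)) (fun _ => Site.active 0) ≤
      (driven src tgt lam)^[k + 1] (fun w => φ (sleepers w)) (fun _ => Site.active 0) := by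
  classical
  obtain ⟨t, ht⟩ := tLyap V E src tgt hG
  have hne : ∀ v, (out src v).Nonempty := out_nonempty hG
  have hB := tBellman tComm tDrift
  have hex : ∀ j : ℕ, ∃ L, IsVal src tgt lam (fun σ => j ≤ sleepers σ) L := fun j =>
    exists_val hB hlam ht hne (fun σ => j ≤ sleepers σ)
  choose L hL using hex
  set N := Fintype.card V with hN
  set F : Conf V → ℝ := fun σ => φ 0 + ∑ j ∈ range N, (φ (j + 1) - φ j) * L (j + 1) σ with hF
  have hinc : ∀ j, 0 ≤ φ (j + 1) - φ j := fun j => sub_nonneg.2 (hφ (Nat.le_succ j))
  have hst : ∀ σ, Stable σ → φ (sleepers σ) = F σ := by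
    intro σ hs
    rw [layer φ N (sleepers σ) (sleepers_le σ)]
    simp only [hF]
    congr 1
    apply Finset.sum_congr rfl
    intro j _
    congr 1
    split_ifs with h
    · rw [(hL (j + 1)).stable_one σ hs h]
    · rw [(hL (j + 1)).stable_zero σ hs h]
  have hInv : Inva src tgt lam F (φ N) := by
    refine ⟨?_, ?_, ?_⟩
    · intro σ u hu
      simp only [hF]
      rw [top_add, top_const src tgt hlam u (hne u), top_sum]
      congr 1
      apply Finset.sum_congr rfl
      intro j _
      rw [top_mul, ← (hL (j + 1)).inv σ u hu]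
    · intro σ
      exact add_nonneg h0 (Finset.sum_nonneg fun j _ => mul_nonneg (hinc j) ((hL (j + 1)).nonneg σ))
    · intro σ
      have h1 : ∑ j ∈ range N, (φ (j + 1) - φ j) * L (j + 1) σ ≤
          ∑ j ∈ range N, (φ (j + 1) - φ j) := by
        apply Finset.sum_le_sum
        intro j _
        have := (hL (j + 1)).le_one σ
        have := hinc j
        nlinarith
      rw [Finset.sum_range_sub] at h1
      simp only [hF]
      linarith
  have hadd : ∀ σ, Awake σ → ∀ v : V, F σ ≤ F (addAt σ (some v)) := by
    intro σ hσ v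
    simp only [hF]
    have : ∑ j ∈ range N, (φ (j + 1) - φ j) * L (j + 1) σ ≤
        ∑ j ∈ range N, (φ (j + 1) - φ j) * L (j + 1) (addAt σ (some v)) := by
      apply Finset.sum_le_sum
      intro j _
      exact mul_le_mul_of_nonneg_left
        (val_addAt_le hlam ht hne (j + 1) (L (j + 1)) (hL (j + 1)) σ hσ (some v)) (hinc j)
    linarith
  have hemp : Stable (fun _ : V => Site.active 0) := fun v => rfl
  rw [(iterate_driven hlam ht hne hInv _ hst k).2 _ hemp,
    (iterate_driven hlam ht hne hInv _ hst (k + 1)).2 _ hemp]
  exact unif_step hadd k _ (fun v => by simp)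

end H542ARW
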