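import Mathlib

/-! Activated random walk on a finite directed multigraph with sink: definitions. -/

namespace H542ARW

open Finset

/-- Content of a site: `active k` means `k` active particles (`active 0` is an empty site),
`asleep` means exactly one sleeping particle. -/
inductive Site : Type
  | active (k : ℕ) : Site
  | asleep : Site
deriving DecidableEq

namespace Site

/-- number of active particles -/
def act : Site → ℕ
  | active k => k
  | asleep => 0

/-- number of particles -/
def num : Site → ℕ
  | active k => k
  | asleep => 1

/-- a particle arrives (and wakes up a sleeping particle) -/
def add : Site → Site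
  | active k => active (k + 1)
  | asleep => active 2

/-- an active particle leaves -/
def rem : Site → Site
  | active k => active (k - 1)
  | asleep => asleep

/-- sleep attempt: has an effect only if there is exactly one active particle -/
def slp : Site → Site
  | active k => if k = 1 then asleep else active k
  | asleep => asleep

end Site

/-- configurations -/
abbrev Conf (V : Type) := V → Site

variable {V E : Type} [Fintype V] [DecidableEq V] [Fintype E] [DecidableEq E]

/-- a particle is added at `z`; `none` is the sink, where the particle disappears -/
def addAt (σ : Conf V) (z : Option V) : Conf V :=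
  match z with
  | none => σ
  | some v => Function.update σ v (σ v).add

/-- an active particle leaves `v` -/
def remAt (σ : Conf V) (v : V) : Conf V := Function.update σ v (σ v).rem

/-- sleep attempt at `v` -/
def slpAt (σ : Conf V) (v : V) : Conf V := Function.update σ v (σ v).slp

/-- no active particle -/
def Stable (σ : Conf V) : Prop := ∀ v, (σ v).act = 0

instance (σ : Conf V) : Decidable (Stable σ) := by unfold Stable; infer_instance

/-- number of sleeping particles -/
def sleepers (σ : Conf V) : ℕ := (univ.filter fun v => σ v = Site.asleep).card

/-- outgoing edges of `v` -/
def out (src : E → V) (v : V) : Finset E := univ.filter fun e => src e = v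

/-- The configuration after an active particle of the site `src e` jumps along `e`. -/
def jumpAlong (src : E → V) (tgt : E → Option V) (σ : Conf V) (e : E) : Conf V :=
  addAt (remAt σ (src e)) (tgt e)

/-- total rate of events: every active particle jumps at rate `1`, an active particle alone at
its site falls asleep at rate `lam` -/
noncomputable def rate (lam : ℝ) (σ : Conf V) : ℝ :=
  ∑ v, ((σ v).act : ℝ) + ∑ v, (if σ v = Site.active 1 then lam else 0)

/-- Transition operator of the embedded jump chain of the process: `stepOp f σ` is the expected
value of `f` after the next event (jump of a particle at `v` along the edge `e` from `v`: rate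
(number of active particles at `v`)/(number of edges out of `v`); falling asleep of a lonely
active particle: rate `lam`); stable configurations are absorbing. -/
noncomputable def stepOp (src : E → V) (tgt : E → Option V) (lam : ℝ) (f : Conf V → ℝ)
    (σ : Conf V) : ℝ :=
  if Stable σ then f σ else
    (∑ e, ((σ (src e)).act : ℝ) / ((out src (src e)).card : ℝ) * f (jumpAlong src tgt σ e)
      + ∑ v, (if σ v = Site.active 1 then lam * f (Function.update σ v Site.asleep) else 0))
      / rate lam σ

/-- probability that the jump chain started at `η` has reached within `n` events a stable
configuration satisfying `A` -/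
noncomputable def probBy (src : E → V) (tgt : E → Option V) (lam : ℝ) (A : Conf V → Prop)
    (n : ℕ) (η : Conf V) : ℝ :=
  by
    classical
    exact ((stepOp src tgt lam)^[n] (fun σ => if Stable σ ∧ A σ then (1 : ℝ) else 0)) η

/-- probability that the process started at `η` ends in a stable configuration with at least `k`
sleeping particles: the limit (supremum) of the probabilities that this has happened within `n`
events -/
noncomputable def probGE (src : E → V) (tgt : E → Option V) (lam : ℝ) (k : ℕ) (η : Conf V) : ℝ :=
  ⨆ n : ℕ, probBy src tgt lam (fun σ => k ≤ sleepers σ) n η

/-- every site has a directed path to the sink -/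
def ToSink (src : E → V) (tgt : E → Option V) : Prop :=
  ∀ v : V, Relation.ReflTransGen (fun a b : Option V => ∃ e : E, some (src e) = a ∧ tgt e = b)
    (some v) none

/-! ### Proof tools -/

/-- average over the outgoing edges of `v` of `F (target)` -/
noncomputable def avg (src : E → V) (tgt : E → Option V) (v : V) (F : Option V → ℝ) : ℝ :=
  (∑ e ∈ out src v, F (tgt e)) / ((out src v).card : ℝ)

/-- toppling operator at `v` (legal if `v` is active): with probability `lam/(1+lam)` a sleep
attempt, else a jump along a uniform outgoing edge -/
noncomputable def top (src : E → V) (tgt : E → Option V) (lam : ℝ) (v : V) (f : Conf V → ℝ)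
    (σ : Conf V) : ℝ :=
  lam / (1 + lam) * f (slpAt σ v)
    + 1 / (1 + lam) * avg src tgt v (fun z => f (addAt (remAt σ v) z))

/-- total number of particles -/
def total (σ : Conf V) : ℕ := ∑ v, (σ v).num

/-- Lyapunov function -/
noncomputable def Psi (t : Option V → ℝ) (σ : Conf V) : ℝ := ∑ v, ((σ v).num : ℝ) * t (some v)

/-- `t` is a Lyapunov weight for the graph -/
structure Lyap (src : E → V) (tgt : E → Option V) (t : Option V → ℝ) : Prop where
  none_eq : t none = 0
  one_le : ∀ v : V, 1 ≤ t (some v)
  drift : ∀ v : V, avg src tgt v t ≤ t (some v) - 1

end H542ARW
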