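import Pool.Agent.H542R3.ARW.Stmts

namespace H542ARW

open Finset Filter

theorem tMin : TaskMin := by
  intro X S D Ψ K p c0 hp hΨ h0 h x hx
  have hc0 : ∀ x, S x → -(max c0 0 * Ψ x) ≤ D x := by
    intro y hy
    have h1 := h0 y hy
    have h2 : c0 * Ψ y ≤ max c0 0 * Ψ y :=
      mul_le_mul_of_nonneg_right (le_max_left _ _) (hΨ y hy).1
    linarith
  set c := max c0 0 with hcdef
  have hc : 0 ≤ c := le_max_right _ _
  set K' := max K p with hK'
  have hK'p : 0 < K' := lt_of_lt_of_le hp (le_max_right _ _)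
  set ρ := 1 - p / K' with hρ
  have hρ0 : 0 ≤ ρ := by
    have : p / K' ≤ 1 := by rw [div_le_one hK'p]; exact le_max_right _ _
    linarith
  have hρ1 : ρ < 1 := by
    have : 0 < p / K' := div_pos hp hK'p
    linarith
  have key : ∀ n : ℕ, ∀ y, S y → -(c * ρ ^ n * Ψ y) ≤ D y := by
    intro n
    induction n with
    | zero => intro y hy; simpa using hc0 y hy
    | succ n ih =>
      intro y hy
      have hcn : 0 ≤ c * ρ ^ n := mul_nonneg hc (pow_nonneg hρ0 _)
      rcases h y hy with h1 | ⟨A, hmono, hhom, hAD, hAΨ⟩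
      · have : 0 ≤ c * ρ ^ (n + 1) * Ψ y :=
          mul_nonneg (mul_nonneg hc (pow_nonneg hρ0 _)) (hΨ y hy).1
        linarith
      · have h2 : A (fun z => -(c * ρ ^ n) * Ψ z) ≤ A D := by
          apply hmono
          intro z hz
          have := ih z hz
          linarith
        rw [hhom] at h2
        have h3 : -(c * ρ ^ n) * A Ψ ≥ -(c * ρ ^ n) * (Ψ y - p) := by
          have := mul_le_mul_of_nonneg_left hAΨ hcn
          linarith
        have h4 : Ψ y * (p / K') ≤ p := by
          have h5 : Ψ y ≤ K' := le_trans (hΨ y hy).2 (le_max_left _ _)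
          calc Ψ y * (p / K') ≤ K' * (p / K') :=
                mul_le_mul_of_nonneg_right h5 (div_nonneg hp.le hK'p.le)
            _ = p := by field_simp
        have h6 : c * ρ ^ n * (Ψ y * (p / K')) ≤ c * ρ ^ n * p :=
          mul_le_mul_of_nonneg_left h4 hcn
        have h7 : c * ρ ^ (n + 1) * Ψ y = c * ρ ^ n * Ψ y - c * ρ ^ n * (Ψ y * (p / K')) := by
          rw [pow_succ, hρ]; ring
        rw [h7]
        nlinarith
  have hlim : Tendsto (fun n : ℕ => -(c * ρ ^ n * Ψ x)) atTop (nhds (-(c * 0 * Ψ x))) := by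
    apply Tendsto.neg
    apply Tendsto.mul_const
    apply Tendsto.const_mul
    exact tendsto_pow_atTop_nhds_zero_of_lt_one hρ0 hρ1
  have := le_of_tendsto' hlim (fun n => key n x hx)
  simpa using this

end H542ARW
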