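import Pool.Agent.H542R3.ARW.Drift
import Pool.Agent.H542R3.ARW.Min

set_option linter.unusedSectionVars false

namespace H542ARW

open Finset Filter

variable {V E : Type} [Fintype V] [DecidableEq V] [Fintype E] [DecidableEq E]

theorem out_nonempty {src : E → V} {tgt : E → Option V} (h : ToSink src tgt) (v : V) :
    (out src v).Nonempty := by
  rcases Relation.ReflTransGen.cases_head (h v) with h1 | ⟨c, ⟨e, he, -⟩, -⟩
  · simp at h1
  · exact ⟨e, by simp [out, Option.some.inj he]⟩

theorem lyap_update {src : E → V} {tgt : E → Option V} {t : Option V → ℝ} (ht : Lyap src tgt t)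
    (e0 : E) : Lyap src (Function.update tgt e0 none) t := by
  refine ⟨ht.none_eq, ht.one_le, ?_⟩
  intro v
  refine le_trans ?_ (ht.drift v)
  unfold avg
  apply div_le_div_of_nonneg_right _ (Nat.cast_nonneg _)
  apply Finset.sum_le_sum
  intro e _
  by_cases h : e = e0
  · subst h
    simp only [Function.update_self, ht.none_eq]
    exact lyap_nonneg ht _
  · rw [Function.update_of_ne h]

/-! ### linearity and monotonicity of `top` -/

theorem top_mono_at {src : E → V} {tgt : E → Option V} {lam : ℝ} (hlam : 0 < lam) {u : V}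
    {f g : Conf V → ℝ} {σ : Conf V} (h1 : f (slpAt σ u) ≤ g (slpAt σ u))
    (h2 : ∀ z, f (addAt (remAt σ u) z) ≤ g (addAt (remAt σ u) z)) :
    top src tgt lam u f σ ≤ top src tgt lam u g σ := by
  unfold top
  have hpos : 0 < 1 + lam := by linarith
  have h3 := avg_mono src tgt u h2
  have a1 : 0 ≤ lam / (1 + lam) := by positivity
  have a2 : 0 ≤ 1 / (1 + lam) := by positivity
  exact add_le_add (mul_le_mul_of_nonneg_left h1 a1) (mul_le_mul_of_nonneg_left h3 a2)

theorem top_mul (src : E → V) (tgt : E → Option V) (lam : ℝ) (u : V) (c : ℝ) (f : Conf V → ℝ)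
    (σ : Conf V) : top src tgt lam u (fun τ => c * f τ) σ = c * top src tgt lam u f σ := by
  unfold top
  rw [avg_mul]; ring

theorem top_sub (src : E → V) (tgt : E → Option V) (lam : ℝ) (u : V) (f g : Conf V → ℝ)
    (σ : Conf V) : top src tgt lam u (fun τ => f τ - g τ) σ =
      top src tgt lam u f σ - top src tgt lam u g σ := by
  unfold top
  rw [avg_sub]; ring

theorem top_zero (src : E → V) (tgt : E → Option V) (lam : ℝ) (u : V) (σ : Conf V) :
    top src tgt lam u (fun _ => 0) σ = 0 := by
  have := top_mul src tgt lam u 0 (fun _ => 0) σ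
  simpa using this

theorem top_const (src : E → V) (tgt : E → Option V) {lam : ℝ} (hlam : 0 < lam) (u : V)
    (hne : (out src u).Nonempty) (c : ℝ) (σ : Conf V) :
    top src tgt lam u (fun _ => c) σ = c := by
  unfold top
  rw [avg_const src tgt u hne]
  field_simp
  ring

theorem top_avg (src : E → V) (tgt tgt' : E → Option V) (lam : ℝ) (u v : V)
    (W : Option V → Conf V → ℝ) (σ : Conf V) :
    top src tgt lam u (fun τ => avg src tgt' v (fun z => W z τ)) σ =
      avg src tgt' v (fun z => top src tgt lam u (W z) σ) := by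
  unfold top
  rw [avg_add, avg_mul, avg_mul]
  congr 2
  unfold avg
  simp only [Finset.sum_div]
  rw [Finset.sum_comm]
  apply Finset.sum_congr rfl; intro x _
  apply Finset.sum_congr rfl; intro y _
  ring

theorem top_addAt (src : E → V) (tgt : E → Option V) (lam : ℝ) (u : V) (f : Conf V → ℝ)
    (z : Option V) (σ : Conf V) (hu : 0 < (σ u).act) :
    top src tgt lam u (fun τ => f (addAt τ z)) σ = top src tgt lam u f (addAt σ z) := by
  apply top_congr
  · rw [addAt_slpAt _ _ _ hu]
  · intro w
    rw [addAt_addAt, addAt_remAt _ _ _ hu]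

theorem top_remAt (src : E → V) (tgt : E → Option V) (lam : ℝ) {u x : V} (f : Conf V → ℝ)
    (σ : Conf V) (hux : u ≠ x) (hx : 0 < (σ x).act) :
    top src tgt lam u (fun τ => f (remAt τ x)) σ = top src tgt lam u f (remAt σ x) := by
  apply top_congr
  · rw [remAt_slpAt _ hux]
  · intro w
    rw [← addAt_remAt (remAt σ u) x w (by rw [act_remAt_ne _ hux]; exact hx), remAt_remAt]

theorem avg_update_ne (src : E → V) (tgt : E → Option V) (e0 : E) {u : V} (h : u ≠ src e0)
    (F : Option V → ℝ) : avg src (Function.update tgt e0 none) u F = avg src tgt u F := by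
  unfold avg
  congr 1
  apply Finset.sum_congr rfl
  intro e he
  have he' : src e = u := by simpa [out] using he
  have : e ≠ e0 := by
    rintro rfl; exact h he'.symm
  rw [Function.update_of_ne this]

theorem avg_update_eq (src : E → V) (tgt : E → Option V) (e0 : E) (F : Option V → ℝ) :
    avg src tgt (src e0) F = avg src (Function.update tgt e0 none) (src e0) F +
      (F (tgt e0) - F none) / ((out src (src e0)).card : ℝ) := by
  unfold avg
  rw [← add_div]
  congr 1
  have he0 : e0 ∈ out src (src e0) := by simp [out]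
  rw [← Finset.add_sum_erase _ _ he0, ← Finset.add_sum_erase _ _ he0, Function.update_self]
  have : ∑ e ∈ (out src (src e0)).erase e0, F (Function.update tgt e0 none e) =
      ∑ e ∈ (out src (src e0)).erase e0, F (tgt e) := by
    apply Finset.sum_congr rfl
    intro e he
    rw [Function.update_of_ne (Finset.ne_of_mem_erase he)]
  rw [this]; ring

theorem top_update_ne (src : E → V) (tgt : E → Option V) (lam : ℝ) (e0 : E) {u : V}
    (h : u ≠ src e0) (f : Conf V → ℝ) (σ : Conf V) :
    top src (Function.update tgt e0 none) lam u f σ = top src tgt lam u f σ := by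
  unfold top
  rw [avg_update_ne src tgt e0 h]

theorem top_update_eq (src : E → V) (tgt : E → Option V) (lam : ℝ) (e0 : E)
    (f : Conf V → ℝ) (σ : Conf V) :
    top src tgt lam (src e0) f σ = top src (Function.update tgt e0 none) lam (src e0) f σ +
      1 / (1 + lam) * ((f (addAt (remAt σ (src e0)) (tgt e0)) - f (remAt σ (src e0))) /
        ((out src (src e0)).card : ℝ)) := by
  unfold top
  rw [avg_update_eq src tgt e0]
  have : addAt (remAt σ (src e0)) none = remAt σ (src e0) := rfl
  rw [this]; ring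

/-- existence of the value function -/
theorem exists_val (hB : TaskBellman) {src : E → V} {tgt : E → Option V} {lam : ℝ}
    {t : Option V → ℝ} (hlam : 0 < lam) (ht : Lyap src tgt t) (hne : ∀ v, (out src v).Nonempty)
    (A : Conf V → Prop) : ∃ L, IsVal src tgt lam A L := by
  classical
  obtain ⟨Φ, h1, h2, h3⟩ := hB V E src tgt lam t hlam ht hne
    (fun σ => if A σ then 1 else 0) (fun _ _ => 0) 1 0 le_rfl
    (fun σ => by split_ifs <;> norm_num) (fun v σ _ => by simp)
    (fun u v σ _ _ _ => by
      have := top_zero src tgt lam u σ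
      have h' := top_zero src tgt lam v σ
      simp only [this, h'])
  refine ⟨Φ, ⟨?_, ?_, ?_, ?_, ?_⟩⟩
  · intro σ hs hA; rw [h1 σ hs, if_pos hA]
  · intro σ hs hA; rw [h1 σ hs, if_neg hA]
  · intro σ v hv
    have := h2 σ v hv
    rw [zero_add] at this
    exact this
  · intro σ; exact (h3 σ).1
  · intro σ; have := (h3 σ).2; linarith

/-! ### Expected rewards collected at the uses of the edge -/

/-- reward for toppling `u`: the particle of `x = src e0` uses `e0` -/
noncomputable def rew (src : E → V) (lam : ℝ) (x : V) (g : Conf V → ℝ) (u : V) (σ : Conf V) : ℝ :=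
  if u = x then 1 / (1 + lam) * (g (remAt σ x) / ((out src x).card : ℝ)) else 0

/-- the properties of the expected total reward -/
structure IsRew (src : E → V) (tgt : E → Option V) (lam : ℝ) (t : Option V → ℝ) (x : V)
    (g W : Conf V → ℝ) : Prop where
  stable : ∀ σ, Stable σ → W σ = 0
  inv : ∀ σ u, 0 < (σ u).act → W σ = rew src lam x g u σ + top src tgt lam u W σ
  nonneg : ∀ σ, 0 ≤ W σ
  le : ∀ σ, W σ ≤ Psi t σ

theorem exists_rew (hB : TaskBellman) {src : E → V} {tgt : E → Option V} {lam : ℝ}
    {t : Option V → ℝ} (hlam : 0 < lam) (ht : Lyap src tgt t) (hne : ∀ v, (out src v).Nonempty)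
    (e0 : E) (g : Conf V → ℝ) (hg0 : ∀ σ, 0 ≤ g σ) (hg1 : ∀ σ, g σ ≤ 1)
    (hg : ∀ σ u, 0 < (σ u).act → g σ = top src (Function.update tgt e0 none) lam u g σ) :
    ∃ W, IsRew src tgt lam t (src e0) g W := by
  have hpos : 0 < 1 + lam := by linarith
  have hcard : (1 : ℝ) ≤ ((out src (src e0)).card : ℝ) := by
    exact_mod_cast Finset.card_pos.2 (hne (src e0))
  -- key: toppling a site different from `src e0` leaves the reward unchanged on average
  have key : ∀ (u : V) (σ : Conf V), u ≠ src e0 → 0 < (σ u).act → 0 < (σ (src e0)).act →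
      top src tgt lam u (rew src lam (src e0) g (src e0)) σ =
        rew src lam (src e0) g (src e0) σ := by
    intro u σ hu hau hax
    have h1 : rew src lam (src e0) g (src e0) =
        fun τ => (1 / (1 + lam) / ((out src (src e0)).card : ℝ)) *
          (fun ρ => g (remAt ρ (src e0))) τ := by
      funext τ
      simp only [rew, if_true]
      ring
    rw [h1, top_mul, top_remAt src tgt lam g σ hu hax, ← top_update_ne src tgt lam e0 hu g,
      ← hg]
    rw [act_remAt_ne _ hu.symm]; exact hau
  have hzero : ∀ v, v ≠ src e0 → rew src lam (src e0) g v = fun _ => 0 := by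
    intro v hv; funext τ; simp [rew, hv]
  obtain ⟨Φ, h1, h2, h3⟩ := hB V E src tgt lam t hlam ht hne
    (fun _ => 0) (rew src lam (src e0) g) 0 1 zero_le_one
    (fun σ => ⟨le_rfl, le_rfl⟩) (fun v σ _ => by
      unfold rew
      split_ifs
      · have a1 : 0 ≤ 1 / (1 + lam) := by positivity
        have a2 : g (remAt σ (src e0)) / ((out src (src e0)).card : ℝ) ≤ 1 := by
          rw [div_le_one (by linarith)]
          linarith [hg1 (remAt σ (src e0))]
        have a3 : 0 ≤ g (remAt σ (src e0)) / ((out src (src e0)).card : ℝ) :=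
          div_nonneg (hg0 _) (by linarith)
        exact ⟨mul_nonneg a1 a3, by nlinarith⟩
      · exact ⟨le_rfl, by positivity⟩)
    (fun u v σ huv hu hv => by
      by_cases hux : u = src e0
      · have hvx : v ≠ src e0 := fun e => huv (hux.trans e.symm)
        rw [hzero v hvx, top_zero, hux, key v σ hvx hv (hux ▸ hu)]
        ring
      · by_cases hvx : v = src e0
        · rw [hzero u hux, top_zero, hvx, key u σ hux hu (hvx ▸ hv)]
          ring
        · rw [hzero u hux, hzero v hvx, top_zero, top_zero])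
  refine ⟨Φ, ⟨h1, h2, fun σ => (h3 σ).1, fun σ => ?_⟩⟩
  have := (h3 σ).2
  linarith

/-- minimum principle for topplings -/
theorem min_conf (hM : TaskMin) (hD : TaskDrift) {src : E → V} {tgt : E → Option V} {lam : ℝ}
    {t : Option V → ℝ} (hlam : 0 < lam) (ht : Lyap src tgt t) (hne : ∀ v, (out src v).Nonempty)
    (S : Conf V → Prop) (D : Conf V → ℝ) (c0 : ℝ)
    (hst : ∀ σ, S σ → Stable σ → 0 ≤ D σ)
    (hlow : ∀ σ, S σ → ¬ Stable σ → -(c0 * Psi t σ) ≤ D σ) (hc0 : 0 ≤ c0)
    (hstep : ∀ σ, S σ → ¬ Stable σ → ∃ u, 0 < (σ u).act ∧ S (slpAt σ u) ∧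
      (∀ z, S (addAt (remAt σ u) z)) ∧ top src tgt lam u D σ ≤ D σ) :
    ∀ σ, S σ → 0 ≤ D σ := by
  intro η hη
  obtain ⟨d1, d2, d3, d4, d5, d6⟩ := hD V E src tgt lam t hlam ht hne
  obtain ⟨K, hK⟩ := d6 (total η)
  refine hM (Conf V) (fun σ => S σ ∧ total σ ≤ total η) D (Psi t) K (1 / (1 + lam)) c0
    (by positivity) (fun σ hσ => ⟨d4 σ, hK σ hσ.2⟩) ?_ ?_ η ⟨hη, le_rfl⟩
  · intro σ hσ
    by_cases hs : Stable σ
    · have := hst σ hσ.1 hs
      have := mul_nonneg hc0 (d4 σ)
      linarith
    · exact hlow σ hσ.1 hs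
  · intro σ hσ
    by_cases hs : Stable σ
    · exact Or.inl (hst σ hσ.1 hs)
    · obtain ⟨u, hu, hs1, hs2, hs3⟩ := hstep σ hσ.1 hs
      refine Or.inr ⟨fun f => top src tgt lam u f σ, ?_, ?_, hs3, d1 u σ hu⟩
      · intro f g hfg
        apply top_mono_at hlam
        · exact hfg _ ⟨hs1, le_trans (d2 u σ) hσ.2⟩
        · intro z
          exact hfg _ ⟨hs2 z, le_trans (d3 u z σ hu) hσ.2⟩
      · intro c f
        exact top_mul src tgt lam u c f σ

theorem exists_active {σ : Conf V} (h : ¬ Stable σ) : ∃ u, 0 < (σ u).act := by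
  unfold Stable at h
  push Not at h
  obtain ⟨v, hv⟩ := h
  exact ⟨v, Nat.pos_of_ne_zero hv⟩

end H542ARW
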