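import Pool.Agent.H542R3.ARW.Final

set_option linter.unusedSectionVars false

namespace H542ARW

open Finset Filter

variable {V E : Type} [Fintype V] [DecidableEq V] [Fintype E] [DecidableEq E]

/-- Fact 1: superharmonicity at a configuration where `v` is not asleep -/
theorem fact_one (hW : TaskWake) {src : E → V} {tgt : E → Option V} {lam : ℝ}
    {t : Option V → ℝ} (hlam : 0 < lam) (ht : Lyap src tgt t) (hne : ∀ v, (out src v).Nonempty)
    (k : ℕ) (L : Conf V → ℝ) (hL : IsVal src tgt lam (fun σ => k ≤ sleepers σ) L)
    (v : V) (τ : Conf V) (hv : τ v ≠ Site.asleep) :
    avg src tgt v (fun z => L (addAt τ z)) ≤ L (addAt τ (some v)) := by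
  have hpos : 0 < 1 + lam := by linarith
  obtain ⟨j, hj⟩ : ∃ j, τ v = Site.active j := by
    cases h : τ v with
    | active j => exact ⟨j, rfl⟩
    | asleep => exact absurd h hv
  have hadd : addAt τ (some v) v = Site.active (j + 1) := by
    rw [addAt_apply]; simp [hj, Site.add]
  have hact : 0 < (addAt τ (some v) v).act := by rw [hadd]; simp [Site.act]
  have hrem : remAt (addAt τ (some v)) v = τ := by
    funext w
    rw [remAt_apply]
    by_cases h : v = w
    · subst h; rw [if_pos rfl, hadd, hj]; rfl
    · rw [if_neg h, addAt_apply]
      have : ¬ (some v = some w) := fun e => h (Option.some.inj e)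
      rw [if_neg this]
  have hinv := hL.inv (addAt τ (some v)) v hact
  unfold top at hinv
  rw [hrem] at hinv
  have hslp : L (addAt τ (some v)) ≤ L (slpAt (addAt τ (some v)) v) := by
    apply hW V E src tgt lam t hlam ht hne k L hL
    intro w
    by_cases h : v = w
    · subst h
      rw [slpAt_apply, if_pos rfl, hadd]
      simp only [Site.slp]
      split_ifs with h1
      · right; exact ⟨rfl, by rw [h1]⟩
      · left; rfl
    · left
      rw [slpAt_apply, if_neg h]
  have h1 : lam / (1 + lam) * L (addAt τ (some v)) ≤
      lam / (1 + lam) * L (slpAt (addAt τ (some v)) v) :=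
    mul_le_mul_of_nonneg_left hslp (by positivity)
  have h2 : L (addAt τ (some v)) = lam / (1 + lam) * L (addAt τ (some v)) +
      1 / (1 + lam) * L (addAt τ (some v)) := by
    field_simp
    ring
  have h3 : 1 / (1 + lam) * avg src tgt v (fun z => L (addAt τ z)) ≤
      1 / (1 + lam) * L (addAt τ (some v)) := by linarith
  exact le_of_mul_le_mul_left h3 (by positivity)

theorem main_le (hB : TaskBellman) (hW : TaskWake) {src : E → V} {tgt : E → Option V} {lam : ℝ}
    {t : Option V → ℝ} (hlam : 0 < lam) (ht : Lyap src tgt t) (hne : ∀ v, (out src v).Nonempty)
    (e0 : E) (y : V) (hy : tgt e0 = some y) (k : ℕ) (L L' : Conf V → ℝ)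
    (hL : IsVal src tgt lam (fun σ => k ≤ sleepers σ) L)
    (hL' : IsVal src (Function.update tgt e0 none) lam (fun σ => k ≤ sleepers σ) L')
    (η : Conf V) (hη : ∀ v, η v ≠ Site.asleep) : L' η ≤ L η := by
  have hpos : 0 < 1 + lam := by linarith
  set tgt' := Function.update tgt e0 none with htgt'
  have ht' : Lyap src tgt' t := lyap_update ht e0
  obtain ⟨-, -, -, d4, d5, -⟩ := tDrift V E src tgt lam t hlam ht hne
  -- rewards
  have hex : ∀ z : Option V, ∃ W, IsRew src tgt lam t (src e0) (fun τ => L' (addAt τ z)) W := by
    intro z
    apply exists_rew hB hlam ht hne e0
    · intro σ; exact hL'.nonneg _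
    · intro σ; exact hL'.le_one _
    · intro σ u hu
      rw [← htgt', top_addAt src tgt' lam u L' z σ hu]
      exact hL'.inv _ u (act_addAt _ _ hu)
  choose W hWr using hex
  -- Step A
  have stepA : L η - L' η - (W (some y) η - W none η) = 0 := by
    have hZinv : ∀ σ u, 0 < (σ u).act →
        top src tgt lam u (fun τ => L τ - L' τ - (W (some y) τ - W none τ)) σ =
          L σ - L' σ - (W (some y) σ - W none σ) := by
      intro σ u hu
      rw [top_sub src tgt lam u (fun τ => L τ - L' τ) (fun τ => W (some y) τ - W none τ),
        top_sub, top_sub, ← hL.inv σ u hu]
      have e1 := (hWr (some y)).inv σ u hu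
      have e2 := (hWr none).inv σ u hu
      have e3 := hL'.inv σ u hu
      by_cases hux : u = src e0
      · subst hux
        rw [top_update_eq src tgt lam e0 L' σ, ← htgt', ← e3]
        simp only [rew, if_true] at e1 e2
        rw [hy]
        have e4 : L' (addAt (remAt σ (src e0)) none) = L' (remAt σ (src e0)) := rfl
        rw [e4] at e2
        have e5 : 1 / (1 + lam) * ((L' (addAt (remAt σ (src e0)) (some y)) -
            L' (remAt σ (src e0))) / ((out src (src e0)).card : ℝ)) =
            1 / (1 + lam) * (L' (addAt (remAt σ (src e0)) (some y)) /
              ((out src (src e0)).card : ℝ)) -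
            1 / (1 + lam) * (L' (remAt σ (src e0)) / ((out src (src e0)).card : ℝ)) := by
          ring
        rw [e5]
        linarith
      · rw [htgt', top_update_ne src tgt lam e0 hux] at e3
        rw [← e3]
        simp only [rew, if_neg hux] at e1 e2
        linarith
    have hst : ∀ σ, Stable σ → L σ - L' σ - (W (some y) σ - W none σ) = 0 := by
      intro σ hs
      rw [(hWr (some y)).stable σ hs, (hWr none).stable σ hs]
      by_cases hA : k ≤ sleepers σ
      · rw [hL.stable_one σ hs hA, hL'.stable_one σ hs hA]; ring
      · rw [hL.stable_zero σ hs hA, hL'.stable_zero σ hs hA]; ring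
    have hbd : ∀ σ, ¬ Stable σ → |L σ - L' σ - (W (some y) σ - W none σ)| ≤ 2 * Psi t σ := by
      intro σ hs
      have a1 := hL.nonneg σ
      have a2 := hL.le_one σ
      have a3 := hL'.nonneg σ
      have a4 := hL'.le_one σ
      have a5 := (hWr (some y)).nonneg σ
      have a6 := (hWr (some y)).le σ
      have a7 := (hWr none).nonneg σ
      have a8 := (hWr none).le σ
      have a9 := d5 σ hs
      rw [abs_le]
      constructor <;> linarith
    apply le_antisymm
    · have := min_conf tMin tDrift hlam ht hne (fun _ => True)
        (fun σ => -(L σ - L' σ - (W (some y) σ - W none σ))) 2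
        (fun σ _ hs => by simp only [hst σ hs, neg_zero, le_refl])
        (fun σ _ hs => by
          have := (abs_le.1 (hbd σ hs)).2
          linarith) (by norm_num)
        (fun σ _ hs => by
          obtain ⟨u, hu⟩ := exists_active hs
          refine ⟨u, hu, trivial, fun _ => trivial, ?_⟩
          have h1 := top_mul src tgt lam u (-1)
            (fun τ => L τ - L' τ - (W (some y) τ - W none τ)) σ
          simp only [neg_one_mul] at h1
          rw [h1, hZinv σ u hu])
        η trivial
      linarith
    · exact min_conf tMin tDrift hlam ht hne (fun _ => True)
        (fun σ => L σ - L' σ - (W (some y) σ - W none σ)) 2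
        (fun σ _ hs => by simp only [hst σ hs, le_refl])
        (fun σ _ hs => by
          have := (abs_le.1 (hbd σ hs)).1
          linarith) (by norm_num)
        (fun σ _ hs => by
          obtain ⟨u, hu⟩ := exists_active hs
          exact ⟨u, hu, trivial, fun _ => trivial, (hZinv σ u hu).le⟩)
        η trivial
  -- Step B
  have stepB : ∀ v : V, avg src tgt' v (fun z => W z η) ≤ W (some v) η := by
    intro v
    have := min_conf tMin tDrift hlam ht hne (fun σ => σ v ≠ Site.asleep ∨ Stable σ)
      (fun σ => W (some v) σ - avg src tgt' v (fun z => W z σ)) 1
      (fun σ _ hs => by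
        have : avg src tgt' v (fun z => W z σ) = 0 := by
          rw [avg_congr src tgt' v (fun z => (hWr z).stable σ hs), avg_const src tgt' v (hne v)]
        simp only [this, (hWr (some v)).stable σ hs, sub_zero, le_refl])
      (fun σ _ hs => by
        have a1 : avg src tgt' v (fun z => W z σ) ≤ Psi t σ := by
          calc avg src tgt' v (fun z => W z σ) ≤ avg src tgt' v (fun _ => Psi t σ) :=
                avg_mono src tgt' v (fun z => (hWr z).le σ)
            _ = Psi t σ := avg_const src tgt' v (hne v) _
        have a2 := (hWr (some v)).nonneg σ
        linarith) zero_le_one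
      (fun σ hS hs => by
        have hv : σ v ≠ Site.asleep := by
          rcases hS with h | h
          · exact h
          · exact absurd h hs
        -- the drift inequality for any active site
        have hdr : ∀ u, 0 < (σ u).act →
            top src tgt lam u (fun τ => W (some v) τ - avg src tgt' v (fun z => W z τ)) σ ≤
              W (some v) σ - avg src tgt' v (fun z => W z σ) := by
          intro u hu
          rw [top_sub, top_avg src tgt tgt' lam u v W σ]
          have e1 := (hWr (some v)).inv σ u hu
          have e2 : ∀ z, top src tgt lam u (W z) σ =
              W z σ - rew src lam (src e0) (fun τ => L' (addAt τ z)) u σ := by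
            intro z
            have := (hWr z).inv σ u hu
            linarith
          rw [avg_congr src tgt' v e2, avg_sub]
          have e3 : avg src tgt' v (fun z => rew src lam (src e0) (fun τ => L' (addAt τ z)) u σ) ≤
              rew src lam (src e0) (fun τ => L' (addAt τ (some v))) u σ := by
            by_cases hux : u = src e0
            · simp only [rew, if_pos hux]
              have e4 : ∀ z, 1 / (1 + lam) * (L' (addAt (remAt σ (src e0)) z) /
                  ((out src (src e0)).card : ℝ)) = (1 / (1 + lam) /
                  ((out src (src e0)).card : ℝ)) * L' (addAt (remAt σ (src e0)) z) := by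
                intro z; ring
              rw [avg_congr src tgt' v e4, avg_mul, e4]
              apply mul_le_mul_of_nonneg_left _ (by positivity)
              apply fact_one hW hlam ht' hne k L' hL' v
              rw [remAt_apply]
              split_ifs with h
              · intro h2
                apply hv
                cases hc : σ v with
                | active j => rw [hc] at h2; simp [Site.rem] at h2
                | asleep => rfl
              · exact hv
            · simp only [rew, if_neg hux]
              rw [avg_const src tgt' v (hne v)]
          linarith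
        have hadd : ∀ s : Site, s.add ≠ Site.asleep := by
          intro s; cases s <;> simp [Site.add]
        by_cases hex : ∃ u, u ≠ v ∧ 0 < (σ u).act
        · obtain ⟨u, huv, hu⟩ := hex
          refine ⟨u, hu, Or.inl ?_, fun z => Or.inl ?_, hdr u hu⟩
          · rw [slpAt_apply, if_neg huv]; exact hv
          · rw [addAt_apply, remAt_apply, if_neg huv]
            split_ifs
            · exact hadd _
            · exact hv
        · push Not at hex
          obtain ⟨u, hu⟩ := exists_active hs
          have huv : u = v := by
            by_contra h
            exact absurd (hex u h) (by omega)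
          subst huv
          obtain ⟨j, hj⟩ := (act_pos_iff _).1 hu
          refine ⟨u, hu, ?_, fun z => Or.inl ?_, hdr u hu⟩
          · by_cases h0 : j = 0
            · right
              intro w
              rw [slpAt_apply]
              split_ifs with h
              · subst h; rw [hj, h0]; simp [Site.slp, Site.act]
              · have := hex w (fun e => h e.symm)
                omega
            · left
              rw [slpAt_apply, if_pos rfl, hj]
              have : ¬ (j + 1 = 1) := by omega
              simp [Site.slp, h0]
          · rw [addAt_apply, remAt_apply, if_pos rfl, hj]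
            split_ifs
            · exact hadd _
            · simp [Site.rem])
      η (Or.inl (hη v))
    linarith
  -- Step C
  have stepC : ∀ z : Option V, 0 ≤ W z η - W none η := by
    have hW0 := (hWr none).nonneg η
    intro z
    refine tMin (Option V) (fun _ => True) (fun z => W z η - W none η) t
      (∑ v, t (some v)) 1 (W none η) one_pos ?_ ?_ ?_ z trivial
    · intro z _
      refine ⟨lyap_nonneg ht z, ?_⟩
      cases z with
      | none =>
        rw [ht.none_eq]
        exact Finset.sum_nonneg fun v _ => lyap_nonneg ht _
      | some v =>
        exact Finset.single_le_sum (f := fun v => t (some v)) (fun w _ => lyap_nonneg ht _)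
          (Finset.mem_univ v)
    · intro z _
      cases z with
      | none => simp [ht.none_eq]
      | some v =>
        have h1 := ht.one_le v
        have h2 := (hWr (some v)).nonneg η
        have h3 : W none η ≤ W none η * t (some v) := by nlinarith
        linarith
    · intro z _
      cases z with
      | none => left; simp
      | some v =>
        right
        refine ⟨avg src tgt' v, ?_, ?_, ?_, ht'.drift v⟩
        · intro f g hfg
          exact avg_mono src tgt' v (fun z => hfg z trivial)
        · intro c f
          exact avg_mul src tgt' v c f
        · rw [avg_sub, avg_const src tgt' v (hne v)]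
          have := stepB v
          linarith
  have := stepC (some y)
  linarith

end H542ARW
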