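import Pool.Agent.H542R3.ARW.Defs

/-! Task statements. -/

namespace H542ARW

open Finset

/-- existence of a Lyapunov weight -/
def TaskLyap : Prop := ∀ (V E : Type) [Fintype V] [DecidableEq V] [Fintype E] [DecidableEq E]
  (src : E → V) (tgt : E → Option V), ToSink src tgt → ∃ t : Option V → ℝ, Lyap src tgt t

/-- abstract minimum principle -/
def TaskMin : Prop := ∀ (X : Type) (S : X → Prop) (D Ψ : X → ℝ) (K p c0 : ℝ), 0 < p →
  (∀ x, S x → 0 ≤ Ψ x ∧ Ψ x ≤ K) → (∀ x, S x → -(c0 * Ψ x) ≤ D x) →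
  (∀ x, S x → 0 ≤ D x ∨ ∃ A : (X → ℝ) → ℝ, (∀ f g, (∀ y, S y → f y ≤ g y) → A f ≤ A g) ∧
    (∀ (c : ℝ) f, A (fun y => c * f y) = c * A f) ∧ A D ≤ D x ∧ A Ψ ≤ Ψ x - p) →
  ∀ x, S x → 0 ≤ D x

/-- legal topplings at different sites commute -/
def TaskComm : Prop := ∀ (V E : Type) [Fintype V] [DecidableEq V] [Fintype E] [DecidableEq E]
  (src : E → V) (tgt : E → Option V) (lam : ℝ) (u v : V) (f : Conf V → ℝ) (σ : Conf V),
  u ≠ v → 0 < (σ u).act → 0 < (σ v).act →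
  top src tgt lam u (top src tgt lam v f) σ = top src tgt lam v (top src tgt lam u f) σ

/-- drift of the Lyapunov function, and the number of particles does not increase -/
def TaskDrift : Prop := ∀ (V E : Type) [Fintype V] [DecidableEq V] [Fintype E] [DecidableEq E]
  (src : E → V) (tgt : E → Option V) (lam : ℝ) (t : Option V → ℝ), 0 < lam → Lyap src tgt t →
  (∀ v, (out src v).Nonempty) →
  (∀ (u : V) (σ : Conf V), 0 < (σ u).act →
    top src tgt lam u (Psi t) σ ≤ Psi t σ - 1 / (1 + lam)) ∧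
  (∀ (u : V) (σ : Conf V), total (slpAt σ u) ≤ total σ) ∧
  (∀ (u : V) (z : Option V) (σ : Conf V), 0 < (σ u).act → total (addAt (remAt σ u) z) ≤ total σ) ∧
  (∀ σ : Conf V, 0 ≤ Psi t σ) ∧ (∀ σ : Conf V, ¬ Stable σ → 1 ≤ Psi t σ) ∧
  (∀ m : ℕ, ∃ K : ℝ, ∀ σ : Conf V, total σ ≤ m → Psi t σ ≤ K)

/-- value function (Bellman iteration); gives the abelian property -/
def TaskBellman : Prop := ∀ (V E : Type) [Fintype V] [DecidableEq V] [Fintype E] [DecidableEq E]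
  (src : E → V) (tgt : E → Option V) (lam : ℝ) (t : Option V → ℝ), 0 < lam → Lyap src tgt t →
  (∀ v, (out src v).Nonempty) →
  ∀ (φ : Conf V → ℝ) (r : V → Conf V → ℝ) (B C : ℝ), 0 ≤ C →
  (∀ σ, 0 ≤ φ σ ∧ φ σ ≤ B) →
  (∀ v σ, 0 < (σ v).act → 0 ≤ r v σ ∧ r v σ ≤ C / (1 + lam)) →
  (∀ u v σ, u ≠ v → 0 < (σ u).act → 0 < (σ v).act →
    r u σ + top src tgt lam u (r v) σ = r v σ + top src tgt lam v (r u) σ) →
  ∃ Φ : Conf V → ℝ, (∀ σ, Stable σ → Φ σ = φ σ) ∧
    (∀ σ v, 0 < (σ v).act → Φ σ = r v σ + top src tgt lam v Φ σ) ∧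
    (∀ σ, 0 ≤ Φ σ ∧ Φ σ ≤ B + C * Psi t σ)

/-- `L` is an invariant of all legal topplings with boundary values `1_A` -/
structure IsVal {V E : Type} [Fintype V] [DecidableEq V] [Fintype E] [DecidableEq E]
    (src : E → V) (tgt : E → Option V) (lam : ℝ) (A : Conf V → Prop) (L : Conf V → ℝ) : Prop where
  stable_one : ∀ σ, Stable σ → A σ → L σ = 1
  stable_zero : ∀ σ, Stable σ → ¬ A σ → L σ = 0
  inv : ∀ σ v, 0 < (σ v).act → L σ = top src tgt lam v L σ
  nonneg : ∀ σ, 0 ≤ L σ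
  le_one : ∀ σ, L σ ≤ 1

/-- waking up sleeping particles does not increase the final number of sleeping particles -/
def TaskWake : Prop := ∀ (V E : Type) [Fintype V] [DecidableEq V] [Fintype E] [DecidableEq E]
  (src : E → V) (tgt : E → Option V) (lam : ℝ) (t : Option V → ℝ), 0 < lam → Lyap src tgt t →
  (∀ v, (out src v).Nonempty) →
  ∀ (k : ℕ) (L : Conf V → ℝ), IsVal src tgt lam (fun σ => k ≤ sleepers σ) L →
  ∀ σ σ' : Conf V, (∀ v, σ' v = σ v ∨ (σ v = Site.asleep ∧ σ' v = Site.active 1)) → L σ' ≤ L σ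

/-- the jump chain computes `L` -/
def TaskJump : Prop := ∀ (V E : Type) [Fintype V] [DecidableEq V] [Fintype E] [DecidableEq E]
  (src : E → V) (tgt : E → Option V) (lam : ℝ) (t : Option V → ℝ), 0 < lam → Lyap src tgt t →
  (∀ v, (out src v).Nonempty) →
  ∀ (A : Conf V → Prop) (L : Conf V → ℝ), IsVal src tgt lam A L →
  ∀ η : Conf V, (∀ n, probBy src tgt lam A n η ≤ L η) ∧
    Filter.Tendsto (fun n => probBy src tgt lam A n η) Filter.atTop (nhds (L η))

end H542ARW
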